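import Mathlib

/-!
Friedman-Pippenger extendability with rollback (tool for MP_134267_co).

`W` is the set of used vertices, `f` the degrees inside the used graph, `X` the ambient vertex set.
-/

set_option autoImplicit false
set_option linter.unusedSectionVars false

namespace Pool.Agent.Exp

open Finset

variable {V : Type*} [DecidableEq V]

open scoped Classical in
/-- the vertices of `X` with a neighbour in `U` -/
noncomputable def nb (G : SimpleGraph V) (X U : Finset V) : Finset V :=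
  X.filter fun y => ∃ x ∈ U, G.Adj x y

theorem mem_nb {G : SimpleGraph V} {X U : Finset V} {y : V} :
    y ∈ nb G X U ↔ y ∈ X ∧ ∃ x ∈ U, G.Adj x y := by
  classical
  simp [nb]

theorem nb_subset (G : SimpleGraph V) (X U : Finset V) : nb G X U ⊆ X := fun _ h => (mem_nb.1 h).1

theorem nb_mono (G : SimpleGraph V) (X : Finset V) {U U' : Finset V} (h : U ⊆ U') : nb G X U ⊆ nb G X U' := by
  intro y hy
  obtain ⟨h1, x, hx, h2⟩ := mem_nb.1 hy
  exact mem_nb.2 ⟨h1, x, h hx, h2⟩

theorem nb_union (G : SimpleGraph V) (X U U' : Finset V) : nb G X (U ∪ U') = nb G X U ∪ nb G X U' := by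
  ext y
  simp only [mem_nb, mem_union]
  constructor
  · rintro ⟨h1, x, hx | hx, h2⟩
    · exact Or.inl ⟨h1, x, hx, h2⟩
    · exact Or.inr ⟨h1, x, hx, h2⟩
  · rintro (⟨h1, x, hx, h2⟩ | ⟨h1, x, hx, h2⟩)
    · exact ⟨h1, x, Or.inl hx, h2⟩
    · exact ⟨h1, x, Or.inr hx, h2⟩

theorem nb_inter_subset (G : SimpleGraph V) (X U U' : Finset V) : nb G X (U ∩ U') ⊆ nb G X U ∩ nb G X U' :=
  subset_inter (nb_mono G X inter_subset_left) (nb_mono G X inter_subset_right)

/-- the room of a set `U` -/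
noncomputable def room (G : SimpleGraph V) (X : Finset V) (D : ℕ) (W : Finset V) (f : V → ℕ) (U : Finset V) : ℤ :=
  ((nb G X U \ W).card : ℤ) - ((D : ℤ) - 1) * U.card + ∑ x ∈ U ∩ W, ((f x : ℤ) - 1)

/-- extendable state: small sets have room -/
def Ext (G : SimpleGraph V) (X : Finset V) (D m : ℕ) (W : Finset V) (f : V → ℕ) : Prop :=
  (∀ v ∈ W, f v ≤ D) ∧ ∀ U ⊆ X, U.card ≤ 2 * m → 0 ≤ room G X D W f U

/-- large disjoint sets are joined by an edge -/
def Joined (G : SimpleGraph V) (X : Finset V) (m : ℕ) : Prop :=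
  ∀ A ⊆ X, ∀ B ⊆ X, Disjoint A B → m ≤ A.card → m ≤ B.card → ∃ a ∈ A, ∃ b ∈ B, G.Adj a b

theorem room_congr {G : SimpleGraph V} {X : Finset V} {D : ℕ} {W : Finset V} {f g : V → ℕ}
    (h : ∀ x ∈ W, f x = g x) (U : Finset V) : room G X D W f U = room G X D W g U := by
  unfold room
  congr 1
  refine sum_congr rfl fun x hx => ?_
  rw [h x (mem_inter.1 hx).2]

theorem Ext.congr {G : SimpleGraph V} {X : Finset V} {D m : ℕ} {W : Finset V} {f g : V → ℕ}
    (h : Ext G X D m W f) (hfg : ∀ x ∈ W, f x = g x) : Ext G X D m W g := by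
  refine ⟨fun v hv => hfg v hv ▸ h.1 v hv, fun U hU hc => ?_⟩
  rw [← room_congr hfg]
  exact h.2 U hU hc

/-- adding edges between used vertices -/
theorem Ext.add_edge {G : SimpleGraph V} {X : Finset V} {D m : ℕ} {W : Finset V} {f g : V → ℕ}
    (h : Ext G X D m W f) (hfg : ∀ x ∈ W, f x ≤ g x) (hg : ∀ x ∈ W, g x ≤ D) : Ext G X D m W g := by
  refine ⟨hg, fun U hU hc => (h.2 U hU hc).trans ?_⟩
  unfold room
  have : ∑ x ∈ U ∩ W, ((f x : ℤ) - 1) ≤ ∑ x ∈ U ∩ W, ((g x : ℤ) - 1) := by
    refine sum_le_sum fun x hx => ?_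
    have := hfg x (mem_inter.1 hx).2
    omega
  linarith

/-- an initial state: strong expansion outside `W` -/
theorem Ext.init {G : SimpleGraph V} {X : Finset V} {D m : ℕ} {W : Finset V} {f : V → ℕ}
    (hf : ∀ v ∈ W, f v ≤ D) (h : ∀ U ⊆ X, U.card ≤ 2 * m → D * U.card ≤ (nb G X U \ W).card) :
    Ext G X D m W f := by
  refine ⟨hf, fun U hU hc => ?_⟩
  unfold room
  have h1 := h U hU hc
  have h2 : -((U ∩ W).card : ℤ) ≤ ∑ x ∈ U ∩ W, ((f x : ℤ) - 1) := by
    have : ∑ x ∈ U ∩ W, (-1 : ℤ) ≤ ∑ x ∈ U ∩ W, ((f x : ℤ) - 1) :=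
      sum_le_sum fun x _ => by omega
    simpa using this
  have h3 : (U ∩ W).card ≤ U.card := card_le_card inter_subset_left
  have h4 : ((D : ℤ)) * U.card ≤ (nb G X U \ W).card := by exact_mod_cast h1
  have h5 : ((U ∩ W).card : ℤ) ≤ U.card := by exact_mod_cast h3
  linarith

theorem room_submod (G : SimpleGraph V) (X : Finset V) (D : ℕ) (W : Finset V) (f : V → ℕ) (U U' : Finset V) :
    room G X D W f (U ∪ U') + room G X D W f (U ∩ U') ≤ room G X D W f U + room G X D W f U' := by
  unfold room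
  have h1 : (nb G X (U ∪ U') \ W).card + (nb G X (U ∩ U') \ W).card
      ≤ (nb G X U \ W).card + (nb G X U' \ W).card := by
    have e1 : nb G X (U ∪ U') \ W = (nb G X U \ W) ∪ (nb G X U' \ W) := by
      rw [nb_union, union_sdiff_distrib]
    have e2 : nb G X (U ∩ U') \ W ⊆ (nb G X U \ W) ∩ (nb G X U' \ W) := by
      intro y hy
      obtain ⟨h1, h2⟩ := mem_sdiff.1 hy
      obtain ⟨h3, h4⟩ := mem_inter.1 (nb_inter_subset G X U U' h1)
      exact mem_inter.2 ⟨mem_sdiff.2 ⟨h3, h2⟩, mem_sdiff.2 ⟨h4, h2⟩⟩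
    rw [e1, ← card_union_add_card_inter (nb G X U \ W) (nb G X U' \ W)]
    exact Nat.add_le_add_left (card_le_card e2) _
  have h2 : ((U ∪ U').card : ℤ) + (U ∩ U').card = U.card + U'.card := by
    exact_mod_cast card_union_add_card_inter U U'
  have h3 : ∑ x ∈ (U ∪ U') ∩ W, ((f x : ℤ) - 1) + ∑ x ∈ (U ∩ U') ∩ W, ((f x : ℤ) - 1)
      = ∑ x ∈ U ∩ W, ((f x : ℤ) - 1) + ∑ x ∈ U' ∩ W, ((f x : ℤ) - 1) := by
    have e1 : (U ∪ U') ∩ W = (U ∩ W) ∪ (U' ∩ W) := union_inter_distrib_right U U' W
    have e2 : (U ∩ U') ∩ W = (U ∩ W) ∩ (U' ∩ W) := inter_inter_distrib_right U U' W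
    rw [e1, e2]
    exact sum_union_inter
  have h1' : (((nb G X (U ∪ U') \ W).card : ℤ)) + (nb G X (U ∩ U') \ W).card
      ≤ (nb G X U \ W).card + (nb G X U' \ W).card := by exact_mod_cast h1
  have h4 : ((D : ℤ) - 1) * (U ∪ U').card + ((D : ℤ) - 1) * (U ∩ U').card
      = ((D : ℤ) - 1) * U.card + ((D : ℤ) - 1) * U'.card := by
    rw [← mul_add, ← mul_add, h2]
  linarith

theorem one_le_room {G : SimpleGraph V} {X : Finset V} {D m : ℕ} {W : Finset V} {f : V → ℕ}
    (hJ : Joined G X m) (hD : 1 ≤ D) (hW : W.card + (2 * D + 3) * m ≤ X.card) {U : Finset V} (hU : U ⊆ X)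
    (h1 : m ≤ U.card) (h2 : U.card ≤ 2 * m) : 1 ≤ room G X D W f U := by
  have hB : (X \ (nb G X U ∪ U)).card < m := by
    by_contra hcon
    rw [not_lt] at hcon
    obtain ⟨a, ha, b, hb, hab⟩ := hJ U hU (X \ (nb G X U ∪ U)) sdiff_subset (by
      rw [Finset.disjoint_left]
      intro x hx hx'
      exact (mem_sdiff.1 hx').2 (mem_union_right _ hx)) h1 hcon
    obtain ⟨hb1, hb2⟩ := mem_sdiff.1 hb
    exact hb2 (mem_union_left _ (mem_nb.2 ⟨hb1, a, ha, hab⟩))
  have h3 : X.card ≤ (X \ (nb G X U ∪ U)).card + ((nb G X U).card + U.card) := by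
    calc X.card ≤ ((X \ (nb G X U ∪ U)) ∪ (nb G X U ∪ U)).card := by
          refine card_le_card fun x hx => ?_
          by_cases h : x ∈ nb G X U ∪ U
          · exact mem_union_right _ h
          · exact mem_union_left _ (mem_sdiff.2 ⟨hx, h⟩)
      _ ≤ (X \ (nb G X U ∪ U)).card + (nb G X U ∪ U).card := card_union_le _ _
      _ ≤ _ := Nat.add_le_add_left (card_union_le _ _) _
  have h4 : (nb G X U).card ≤ (nb G X U \ W).card + W.card := by
    calc (nb G X U).card ≤ ((nb G X U \ W) ∪ W).card := by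
          refine card_le_card fun x hx => ?_
          by_cases h : x ∈ W
          · exact mem_union_right _ h
          · exact mem_union_left _ (mem_sdiff.2 ⟨hx, h⟩)
      _ ≤ _ := card_union_le _ _
  have h5 : -(U.card : ℤ) ≤ ∑ x ∈ U ∩ W, ((f x : ℤ) - 1) := by
    have e1 : ∑ x ∈ U ∩ W, (-1 : ℤ) ≤ ∑ x ∈ U ∩ W, ((f x : ℤ) - 1) :=
      sum_le_sum fun x _ => by omega
    have e2 : ((U ∩ W).card : ℤ) ≤ U.card := by exact_mod_cast card_le_card inter_subset_left
    simp only [sum_const, mul_neg, mul_one, nsmul_eq_mul] at e1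
    linarith
  unfold room
  have hD' : (1 : ℤ) ≤ D := by exact_mod_cast hD
  have h6 : ((D : ℤ) + 1) * U.card ≤ ((D : ℤ) + 1) * (2 * m) := by
    refine mul_le_mul_of_nonneg_left ?_ (by linarith)
    exact_mod_cast h2
  have h7 : ((X \ (nb G X U ∪ U)).card : ℤ) + 1 ≤ m := by exact_mod_cast hB
  have h3' : (X.card : ℤ) ≤ (X \ (nb G X U ∪ U)).card + ((nb G X U).card + U.card) := by exact_mod_cast h3
  have h4' : ((nb G X U).card : ℤ) ≤ (nb G X U \ W).card + W.card := by exact_mod_cast h4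
  have hW' : (W.card : ℤ) + (2 * D + 3) * m ≤ X.card := by exact_mod_cast hW
  nlinarith

/-- the room after the new edge `s y`, `y` a new vertex -/
theorem room_leaf {G : SimpleGraph V} {X : Finset V} {D : ℕ} {W : Finset V} {f : V → ℕ} {s y : V} (hs : s ∈ W)
    (hy : y ∉ W) (U : Finset V) :
    room G X D (insert y W) (Function.update (Function.update f s (f s + 1)) y 1) U
      = room G X D W f U - (if y ∈ nb G X U then 1 else 0) + (if s ∈ U then 1 else 0) := by
  have hsy : s ≠ y := fun h => hy (h ▸ hs)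
  have h1 : ((nb G X U \ insert y W).card : ℤ) = (nb G X U \ W).card - (if y ∈ nb G X U then 1 else 0) := by
    have e1 : nb G X U \ insert y W = (nb G X U \ W).erase y := by
      ext z
      simp only [mem_sdiff, mem_insert, mem_erase, not_or]
      tauto
    rw [e1]
    by_cases h : y ∈ nb G X U
    · have h' : y ∈ nb G X U \ W := mem_sdiff.2 ⟨h, hy⟩
      rw [if_pos h, card_erase_of_mem h']
      have := card_pos.2 ⟨y, h'⟩
      omega
    · rw [if_neg h, erase_eq_of_notMem fun h' => h (mem_sdiff.1 h').1]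
      ring
  have h2 : ∑ x ∈ U ∩ insert y W, (((Function.update (Function.update f s (f s + 1)) y 1 x : ℕ) : ℤ) - 1)
      = ∑ x ∈ U ∩ W, ((f x : ℤ) - 1) + (if s ∈ U then 1 else 0) := by
    have e1 : ∑ x ∈ U ∩ insert y W, (((Function.update (Function.update f s (f s + 1)) y 1 x : ℕ) : ℤ) - 1)
        = ∑ x ∈ U ∩ W, (((Function.update (Function.update f s (f s + 1)) y 1 x : ℕ) : ℤ) - 1) := by
      by_cases h : y ∈ U
      · rw [inter_insert_of_mem h, sum_insert (fun h' => hy (mem_inter.1 h').2), Function.update_self]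
        simp
      · rw [inter_insert_of_notMem h]
    rw [e1]
    have e2 : ∀ x ∈ U ∩ W, (((Function.update (Function.update f s (f s + 1)) y 1 x : ℕ) : ℤ) - 1)
        = ((f x : ℤ) - 1) + (if x = s then 1 else 0) := by
      intro x hx
      have hxy : x ≠ y := fun h => hy (h ▸ (mem_inter.1 hx).2)
      rw [Function.update_of_ne hxy]
      by_cases h : x = s
      · subst h
        rw [Function.update_self, if_pos rfl]
        push_cast
        ring
      · rw [Function.update_of_ne h, if_neg h]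
        ring
    rw [sum_congr rfl e2, sum_add_distrib, sum_ite_eq']
    congr 1
    simp only [mem_inter, hs, and_true]
  unfold room
  rw [h1, h2]
  ring

/-- a new leaf at a vertex with spare degree -/
theorem Ext.add_leaf {G : SimpleGraph V} {X : Finset V} {D m : ℕ} {W : Finset V} {f : V → ℕ}
    (h : Ext G X D m W f) (hJ : Joined G X m) (hm : 1 ≤ m)
    (hW : W.card + (2 * D + 3) * m ≤ X.card) {s : V} (hs : s ∈ W) (hsX : s ∈ X) (hf : f s < D) :
    ∃ y ∈ X, y ∉ W ∧ G.Adj s y ∧ Ext G X D m (insert y W) (Function.update (Function.update f s (f s + 1)) y 1) := by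
  classical
  have hD : 1 ≤ D := by omega
  by_contra hcon
  push Not at hcon
  -- critical sets
  have key : ∀ y ∈ X, y ∉ W → G.Adj s y →
      ∃ U ⊆ X, U.card ≤ 2 * m ∧ room G X D W f U = 0 ∧ y ∈ nb G X U ∧ s ∉ U := by
    intro y hyX hyW hadj
    have h1 := hcon y hyX hyW hadj
    have h2 : ¬ ∀ U ⊆ X, U.card ≤ 2 * m →
        0 ≤ room G X D (insert y W) (Function.update (Function.update f s (f s + 1)) y 1) U := by
      intro h3
      refine h1 ⟨fun v hv => ?_, h3⟩
      have hsy : s ≠ y := fun h => hyW (h ▸ hs)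
      by_cases hvy : v = y
      · subst hvy
        rw [Function.update_self]
        exact hD
      · rw [Function.update_of_ne hvy]
        by_cases hvs : v = s
        · subst hvs
          rw [Function.update_self]
          omega
        · rw [Function.update_of_ne hvs]
          exact h.1 v ((mem_insert.1 hv).resolve_left hvy)
    push Not at h2
    obtain ⟨U, hU, hc, hneg⟩ := h2
    rw [room_leaf hs hyW] at hneg
    have h0 := h.2 U hU hc
    refine ⟨U, hU, hc, ?_, ?_, ?_⟩
    · by_cases e1 : y ∈ nb G X U <;> by_cases e2 : s ∈ U <;> simp [e1, e2] at hneg <;> omega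
    · by_contra e1
      by_cases e2 : s ∈ U <;> simp [e1, e2] at hneg <;> omega
    · intro e2
      by_cases e1 : y ∈ nb G X U <;> simp [e1, e2] at hneg <;> omega
  have small : ∀ U ⊆ X, U.card ≤ 2 * m → room G X D W f U = 0 → U.card < m := by
    intro U hU hc h0
    by_contra hcm
    have := one_le_room (f := f) hJ hD hW hU (not_lt.1 hcm) hc
    omega
  -- union of critical sets
  have uni : ∀ Y : Finset V, (∀ y ∈ Y, y ∈ X ∧ y ∉ W ∧ G.Adj s y) →
      ∃ U ⊆ X, U.card < m ∧ room G X D W f U = 0 ∧ Y ⊆ nb G X U ∧ s ∉ U := by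
    intro Y
    induction Y using Finset.induction_on with
    | empty =>
      intro _
      refine ⟨∅, empty_subset _, ?_, ?_, empty_subset _, notMem_empty _⟩
      · rw [card_empty]
        omega
      · have : nb G X (∅ : Finset V) = ∅ := by
          ext z
          simp [mem_nb]
        simp [room, this]
    | insert y Y _ ih =>
      intro hY
      obtain ⟨U, hU, hc, h0, hYU, hsU⟩ := ih fun z hz => hY z (mem_insert_of_mem hz)
      obtain ⟨hyX, hyW, hadj⟩ := hY y (mem_insert_self _ _)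
      obtain ⟨U', hU', hc', h0', hyU', hsU'⟩ := key y hyX hyW hadj
      have hcs' := small U' hU' hc' h0'
      have hcu : (U ∪ U').card ≤ 2 * m := (card_union_le _ _).trans (by omega)
      have hUU : U ∪ U' ⊆ X := union_subset hU hU'
      have h1 := room_submod G X D W f U U'
      have h2 := h.2 (U ∩ U') (inter_subset_left.trans hU) ((card_le_card inter_subset_left).trans (by omega))
      have h3 := h.2 (U ∪ U') hUU hcu
      have h4 : room G X D W f (U ∪ U') = 0 := by omega
      refine ⟨U ∪ U', hUU, small _ hUU hcu h4, h4, ?_, ?_⟩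
      · rw [nb_union, insert_subset_iff]
        exact ⟨mem_union_right _ hyU', hYU.trans subset_union_left⟩
      · rw [mem_union, not_or]
        exact ⟨hsU, hsU'⟩
  obtain ⟨U, hU, hc, h0, hYU, hsU⟩ := uni (X.filter fun y => y ∉ W ∧ G.Adj s y) fun y hy => by
    obtain ⟨h1, h2, h3⟩ := mem_filter.1 hy
    exact ⟨h1, h2, h3⟩
  have h5 := h.2 (insert s U) (insert_subset hsX hU) (by
    rw [card_insert_of_notMem hsU]
    omega)
  have h6 : nb G X (insert s U) \ W = nb G X U \ W := by
    apply Subset.antisymm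
    · intro y hy
      obtain ⟨hy1, hy2⟩ := mem_sdiff.1 hy
      obtain ⟨hyX, x, hx, hadj⟩ := mem_nb.1 hy1
      rcases mem_insert.1 hx with rfl | hx
      · exact mem_sdiff.2 ⟨hYU (mem_filter.2 ⟨hyX, hy2, hadj⟩), hy2⟩
      · exact mem_sdiff.2 ⟨mem_nb.2 ⟨hyX, x, hx, hadj⟩, hy2⟩
    · exact sdiff_subset_sdiff (nb_mono G X (subset_insert _ _)) (Subset.refl _)
  have h7 : room G X D W f (insert s U) = room G X D W f U - (D - 1) + ((f s : ℤ) - 1) := by
    unfold room
    rw [h6, insert_inter_of_mem hs, sum_insert (fun h' => hsU (mem_inter.1 h').1), card_insert_of_notMem hsU]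
    push_cast
    ring
  rw [h7, h0] at h5
  have : (f s : ℤ) < D := by exact_mod_cast hf
  omega

end Pool.Agent.Exp
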