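import Pool.Agent.Exp.FPForest

/-!
Friedman-Pippenger extendability: connecting two used vertices by a path of a prescribed length.
-/

set_option autoImplicit false

namespace Pool.Agent.Exp

open Finset

variable {V : Type*} [DecidableEq V]

section
variable {G : SimpleGraph V} {X : Finset V} {D m : ℕ} {W : Finset V} {f : V → ℕ} {A : Finset V}
    {p : V → V} {h : V → ℕ}

theorem Forest.card_union (hF : Forest G X D m W f A p h) : (W ∪ A).card = W.card + A.card :=
  card_union_of_disjoint hF.disj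

theorem Forest.notMem_of_mem (hF : Forest G X D m W f A p h) {x : V} (hx : x ∈ A) : x ∉ W := fun h' =>
  (Finset.disjoint_left.1 hF.disj h') hx

/-- a path of new vertices -/
theorem Forest.path (hF : Forest G X D m W f A p h) (hJ : Joined G X m) (hm : 1 ≤ m) (hD : 2 ≤ D) {s : V}
    (hs : s ∈ W ∪ A) (hsX : s ∈ X) (hst : stf W f p A s < D) (j : ℕ)
    (hsize : W.card + A.card + (j + 1) + (2 * D + 3) * m ≤ X.card) :
    ∃ (A' : Finset V) (p' : V → V) (h' : V → ℕ) (t : V), Forest G X D m W f A' p' h' ∧ A ⊆ A' ∧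
      (∀ x ∈ W ∪ A, p' x = p x ∧ h' x = h x) ∧ A'.card = A.card + (j + 1) ∧ t ∈ A' ∧ t ∉ W ∪ A ∧
      stf W f p' A' t = 1 ∧ h' t = h s + (j + 1) ∧ p'^[j + 1] t = s ∧
      ∀ x ∈ W ∪ A, x ≠ s → stf W f p' A' x = stf W f p A x := by
  induction j with
  | zero =>
    obtain ⟨y, _, hy, hF1, e1, e2⟩ := hF.leaf hJ hm (by rw [hF.card_union]; omega) hs hsX hst
    have hyA : y ∉ A := fun h' => hy (mem_union_right _ h')
    have hne : ∀ x ∈ W ∪ A, x ≠ y := fun x hx h' => hy (h' ▸ hx)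
    refine ⟨_, _, _, y, hF1, subset_insert _ _, fun x hx => ?_, card_insert_of_notMem hyA, mem_insert_self _ _, hy, e2,
      ?_, ?_, fun x hx hxs => ?_⟩
    · rw [Function.update_of_ne (hne x hx), Function.update_of_ne (hne x hx)]
      exact ⟨rfl, rfl⟩
    · rw [Function.update_self]
    · rw [zero_add, Function.iterate_one, Function.update_self]
    · rw [e1 x (hne x hx), if_neg (Ne.symm hxs)]
      rfl
  | succ j ih =>
    obtain ⟨A1, p1, h1, t, hF1, hA1, hag, hcard, htA, ht, hstt, hht, hpt, hst'⟩ := ih (by omega)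
    obtain ⟨y, _, hy, hF2, e1, e2⟩ := hF1.leaf hJ hm (by rw [hF1.card_union]; omega) (mem_union_right _ htA)
      (hF1.sub htA) (by rw [hstt]; omega)
    have hyA : y ∉ A1 := fun h' => hy (mem_union_right _ h')
    have hWA : W ∪ A ⊆ W ∪ A1 := union_subset_union (Subset.refl _) hA1
    have hne : ∀ x ∈ W ∪ A1, x ≠ y := fun x hx h' => hy (h' ▸ hx)
    refine ⟨_, _, _, y, hF2, hA1.trans (subset_insert _ _), fun x hx => ?_, ?_, mem_insert_self _ _,
      fun h' => hy (hWA h'), e2, ?_, ?_, fun x hx hxs => ?_⟩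
    · rw [Function.update_of_ne (hne x (hWA hx)), Function.update_of_ne (hne x (hWA hx))]
      exact hag x hx
    · rw [card_insert_of_notMem hyA, hcard]
      ring
    · rw [Function.update_self, hht]
      ring
    · rw [Function.iterate_succ_apply, Function.update_self,
        hF1.iter_congr (fun x hx => Function.update_of_ne (hne x hx) _ _) htA (j + 1) (by omega), hpt]
    · have hxt : t ≠ x := fun h' => ht (h' ▸ hx)
      rw [e1 x (hne x (hWA hx)), if_neg hxt, add_zero, hst' x hx hxs]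

/-- a regular tree of new vertices -/
theorem Forest.tree (hF : Forest G X D m W f A p h) (hJ : Joined G X m) (hm : 1 ≤ m) (hD : 1 ≤ D) {s : V}
    (hs : s ∈ A) (hst : stf W f p A s = 1) (k : ℕ)
    (hsize : W.card + A.card + ∑ i ∈ range k, (D - 1) ^ (i + 1) + (2 * D + 3) * m ≤ X.card) :
    ∃ (A' : Finset V) (p' : V → V) (h' : V → ℕ) (L : Finset V), Forest G X D m W f A' p' h' ∧ A ⊆ A' ∧
      (∀ x ∈ W ∪ A, p' x = p x ∧ h' x = h x) ∧ A'.card = A.card + ∑ i ∈ range k, (D - 1) ^ (i + 1) ∧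
      L ⊆ A' ∧ L.card = (D - 1) ^ k ∧
      (∀ y ∈ L, (y = s ∨ y ∉ A) ∧ h' y = h s + k ∧ p'^[k] y = s ∧ stf W f p' A' y = 1) ∧
      ∀ x ∈ W ∪ A, x ≠ s → stf W f p' A' x = stf W f p A x := by
  induction k with
  | zero =>
    refine ⟨A, p, h, {s}, hF, Subset.refl _, fun x _ => ⟨rfl, rfl⟩, by simp, by simpa using hs, by simp, ?_,
      fun x _ _ => rfl⟩
    intro y hy
    rw [mem_singleton] at hy
    subst hy
    exact ⟨Or.inl rfl, rfl, rfl, hst⟩
  | succ k ih =>
    rw [sum_range_succ] at hsize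
    obtain ⟨A1, p1, h1, L, hF1, hA1, hag, hcard, hLA, hLc, hL, hst'⟩ := ih (by omega)
    have hcount : ∀ t ∈ L, Multiset.count t ((D - 1) • L.val) = D - 1 := by
      intro t ht
      rw [Multiset.count_nsmul, Multiset.count_eq_one_of_mem L.nodup ht, mul_one]
    obtain ⟨A2, p2, h2, hF2, hA2, hag2, hcard2, hpar2, hst2, hst2'⟩ := hF1.leaves hJ hm ((D - 1) • L.val) (by
      intro t ht
      have htL : t ∈ L := Multiset.mem_of_mem_nsmul ht
      refine ⟨mem_union_right _ (hLA htL), hF1.sub (hLA htL), ?_⟩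
      rw [hcount t htL, (hL t htL).2.2.2]
      omega) (by
      rw [hF1.card_union, hcard, Multiset.card_nsmul, Finset.card_val, hLc, ← pow_succ']
      omega)
    have hmem : ∀ y ∈ A2 \ A1, p2 y ∈ L := fun y hy => Multiset.mem_of_mem_nsmul (hpar2 y hy)
    have hc2 : (A2 \ A1).card = (D - 1) ^ (k + 1) := by
      rw [hcard2, Multiset.card_nsmul, Finset.card_val, hLc, ← pow_succ']
    have hWA : W ∪ A ⊆ W ∪ A1 := union_subset_union (Subset.refl _) hA1
    refine ⟨A2, p2, h2, A2 \ A1, hF2, hA1.trans hA2, fun x hx => ?_, ?_, sdiff_subset, hc2, fun y hy => ?_,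
      fun x hx hxs => ?_⟩
    · rw [(hag2 x (hWA hx)).1, (hag2 x (hWA hx)).2]
      exact hag x hx
    · rw [sum_range_succ, ← hc2, ← add_assoc, ← hcard, add_comm, card_sdiff_add_card_eq_card hA2]
    · obtain ⟨hy2, hy1⟩ := mem_sdiff.1 hy
      have hpy := hmem y hy
      obtain ⟨_, i2, i3, _⟩ := hL _ hpy
      refine ⟨Or.inr fun h' => hy1 (hA1 h'), ?_, ?_, hst2 y hy⟩
      · rw [hF2.hgt y hy2, (hag2 _ (mem_union_right _ (hLA hpy))).2, i2]
        ring
      · rw [Function.iterate_succ_apply, hF1.iter_congr (fun x hx => (hag2 x hx).1) (hLA hpy) k (by omega), i3]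
    · have hxL : x ∉ L := by
        intro hxL
        rcases (hL x hxL).1 with h3 | h3
        · exact hxs h3
        · rcases mem_union.1 hx with h4 | h4
          · exact hF1.notMem_of_mem (hLA hxL) h4
          · exact h3 h4
      rw [hst2' x (hWA hx), hst' x hx hxs, Multiset.count_nsmul, Multiset.count_eq_zero_of_notMem (by simpa using hxL),
        mul_zero, add_zero]

end

/-- **connecting lemma**: two used vertices with spare degree are joined by a path of length exactly `l` with new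
interior vertices, and the new state is again extendable -/
theorem Ext.connect {G : SimpleGraph V} {X : Finset V} {D m : ℕ} {W : Finset V} {f : V → ℕ}
    (hE : Ext G X D m W f) (hJ : Joined G X m) (hm : 1 ≤ m) (hD : 2 ≤ D) {k l : ℕ} (hk : m ≤ (D - 1) ^ k)
    (hl : 2 * k + 3 ≤ l)
    (hsize : W.card + l + 2 * ∑ i ∈ range k, (D - 1) ^ (i + 1) + (2 * D + 3) * m ≤ X.card) {a b : V} (ha : a ∈ W)
    (haX : a ∈ X) (hb : b ∈ W) (hbX : b ∈ X) (hab : a ≠ b) (hfa : f a < D) (hfb : f b < D) :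
    ∃ q : ℕ → V, q 0 = a ∧ q l = b ∧ (∀ i < l, G.Adj (q i) (q (i + 1))) ∧
      (∀ i ≤ l, ∀ j ≤ l, q i = q j → i = j) ∧ (∀ i, 0 < i → i < l → q i ∈ X ∧ q i ∉ W) ∧
      Ext G X D m (W ∪ (Ioo 0 l).image q)
        (fun x => if x ∈ W then f x + (if x = a then 1 else 0) + (if x = b then 1 else 0) else 2) := by
  obtain ⟨j, rfl⟩ : ∃ j, l = 2 * k + 3 + j := ⟨l - (2 * k + 3), by omega⟩
  have hF0 : Forest G X D m W f ∅ id fun _ => 0 := Forest.nil hE id
  have hst0 : ∀ x ∈ W, stf W f id ∅ x = f x := fun x hx => by simp [stf, cnt, hx]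
  -- path and tree at a
  obtain ⟨A1, p1, h1, s, hF1, _, hag1, hc1, hsA, _, hss, hhs, hps, hst1⟩ := hF0.path hJ hm hD
    (mem_union_left _ ha) haX (by rw [hst0 a ha]; exact hfa) 0 (by simp only [card_empty]; omega)
  obtain ⟨A2, p2, h2, La, hF2, hA2, hag2, hc2, hLaA, hLac, hLa, hst2⟩ := hF1.tree hJ hm (by omega) hsA hss k (by
    rw [hc1]
    simp only [card_empty]
    omega)
  have hWA1 : ∀ x ∈ W, x ∈ W ∪ A1 := fun x hx => mem_union_left _ hx
  have hstb : stf W f p2 A2 b = f b := by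
    have hbs : b ≠ s := fun h' => hF1.notMem_of_mem hsA (h' ▸ hb)
    rw [hst2 b (mem_union_left _ hb) hbs, hst1 b (mem_union_left _ hb) (Ne.symm hab), hst0 b hb]
  -- path and tree at b
  obtain ⟨A3, p3, h3, t, hF3, hA3, hag3, hc3, htA, ht, hstt, hht, hpt, _⟩ := hF2.path hJ hm hD
    (mem_union_left _ hb) hbX (by rw [hstb]; exact hfb) j (by
      rw [hc2, hc1]
      simp only [card_empty]
      omega)
  obtain ⟨A4, p4, h4, Lb, hF4, hA4, hag4, hc4, hLbA, hLbc, hLb, _⟩ := hF3.tree hJ hm (by omega) htA hstt k (by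
    rw [hc3, hc2, hc1]
    simp only [card_empty]
    omega)
  have hA24 : A2 ⊆ A4 := hA3.trans hA4
  have hWA23 : W ∪ A2 ⊆ W ∪ A3 := union_subset_union (Subset.refl _) hA3
  have hag24 : ∀ x ∈ W ∪ A2, p4 x = p2 x ∧ h4 x = h2 x := fun x hx => by
    obtain ⟨e1, e2⟩ := hag4 x (hWA23 hx)
    obtain ⟨e3, e4⟩ := hag3 x hx
    exact ⟨e1.trans e3, e2.trans e4⟩
  -- the leaves at a
  have hYa : ∀ y ∈ La, h4 y = k + 1 ∧ p4^[k + 1] y = a := by
    intro y hy
    obtain ⟨_, i2, i3, _⟩ := hLa y hy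
    have hyA := hLaA hy
    have hhy : h2 y = k + 1 := by
      rw [i2, hhs, hF0.root a ha]
      ring
    refine ⟨by rw [(hag24 y (mem_union_right _ hyA)).2, hhy], ?_⟩
    rw [hF2.iter_congr (fun x hx => (hag24 x hx).1) hyA (k + 1) (by omega), add_comm, Function.iterate_add_apply, i3]
    have := hF1.iter_congr (fun x hx => (hag2 x hx).1) hsA 1 (by rw [hhs, hF0.root a ha])
    rw [this]
    simpa using hps
  have hYb : ∀ y ∈ Lb, h4 y = k + 1 + j ∧ p4^[k + 1 + j] y = b := by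
    intro y hy
    obtain ⟨_, i2, i3, _⟩ := hLb y hy
    have hyA := hLbA hy
    have hhb : h2 b = 0 := hF2.root b hb
    refine ⟨by rw [i2, hht, hhb]; ring, ?_⟩
    have e : k + 1 + j = (j + 1) + k := by ring
    rw [e, Function.iterate_add_apply, i3, hF3.iter_congr (fun x hx => (hag4 x hx).1) htA (j + 1) (by omega), hpt]
  have hdis : Disjoint La Lb := by
    rw [Finset.disjoint_left]
    intro x hx hx'
    rcases (hLb x hx').1 with h5 | h5
    · subst h5
      exact ht (mem_union_right _ (hLaA hx))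
    · exact h5 (hA3 (hLaA hx))
  obtain ⟨y, hy, z, hz, hyz⟩ := hJ La (hLaA.trans hF2.sub) Lb (hLbA.trans hF4.sub) hdis (by rw [hLac]; exact hk)
    (by rw [hLbc]; exact hk)
  obtain ⟨hhy, hpy⟩ := hYa y hy
  obtain ⟨hhz, hpz⟩ := hYb z hz
  have hyA4 : y ∈ A4 := hA24 (hLaA hy)
  have hzA4 : z ∈ A4 := hLbA hz
  have hIy : ∀ i ≤ k, p4^[i] y ∈ A4 ∧ h4 (p4^[i] y) = k + 1 - i := fun i hi => by
    have := hF4.iter hyA4 i (by omega)
    rwa [hhy] at this
  have hIz : ∀ i ≤ k + j, p4^[i] z ∈ A4 ∧ h4 (p4^[i] z) = k + 1 + j - i := fun i hi => by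
    have := hF4.iter hzA4 i (by omega)
    rwa [hhz] at this
  -- the path
  obtain ⟨q, hq⟩ : ∃ q : ℕ → V, ∀ i, q i = if i ≤ k + 1 then p4^[k + 1 - i] y else p4^[i - (k + 2)] z :=
    ⟨_, fun _ => rfl⟩
  have hqy : ∀ i ≤ k + 1, q i = p4^[k + 1 - i] y := fun i hi => by rw [hq, if_pos hi]
  have hqz : ∀ i, k + 2 ≤ i → q i = p4^[i - (k + 2)] z := fun i hi => by rw [hq, if_neg (by omega)]
  have hq0 : q 0 = a := by rw [hqy 0 (by omega), Nat.sub_zero, hpy]
  have hql : q (2 * k + 3 + j) = b := by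
    rw [hqz _ (by omega), show 2 * k + 3 + j - (k + 2) = k + 1 + j by omega, hpz]
  have hqA : ∀ i, 0 < i → i < 2 * k + 3 + j → q i ∈ A4 := by
    intro i h5 h6
    by_cases h7 : i ≤ k + 1
    · rw [hqy i h7]
      exact (hIy _ (by omega)).1
    · rw [hqz i (by omega)]
      exact (hIz _ (by omega)).1
  have hqp1 : ∀ i, 0 < i → i ≤ k + 1 → p4 (q i) = q (i - 1) := by
    intro i h5 h6
    rw [hqy i h6, hqy (i - 1) (by omega), show k + 1 - (i - 1) = k + 1 - i + 1 by omega, Function.iterate_succ_apply']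
  have hqp2 : ∀ i, k + 2 ≤ i → p4 (q i) = q (i + 1) := by
    intro i h5
    rw [hqz i h5, hqz (i + 1) (by omega), show i + 1 - (k + 2) = i - (k + 2) + 1 by omega,
      Function.iterate_succ_apply']
  have hadj : ∀ i < 2 * k + 3 + j, G.Adj (q i) (q (i + 1)) := by
    intro i h5
    rcases lt_trichotomy i (k + 1) with h6 | h6 | h6
    · have := hF4.adj (q (i + 1)) (hqA _ (by omega) (by omega))
      rwa [hqp1 (i + 1) (by omega) (by omega), Nat.add_sub_cancel] at this
    · subst h6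
      rw [hqy _ le_rfl, hqz (k + 1 + 1) (by omega), Nat.sub_self, show k + 1 + 1 - (k + 2) = 0 by omega]
      exact hyz
    · have := hF4.adj (q i) (hqA _ (by omega) (by omega))
      rw [hqp2 i (by omega)] at this
      exact this.symm
  have hh1 : ∀ i ≤ k + 1, h4 (q i) = i := by
    intro i h5
    rcases Nat.eq_zero_or_pos i with h6 | h6
    · subst h6
      rw [hq0, hF4.root a ha]
    · rw [hqy i h5, (hIy _ (by omega)).2]
      omega
  have hh2 : ∀ i, k + 2 ≤ i → i ≤ 2 * k + 3 + j → h4 (q i) = 2 * k + 3 + j - i := by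
    intro i h5 h6
    rcases Nat.lt_or_ge i (2 * k + 3 + j) with h7 | h7
    · rw [hqz i h5, (hIz _ (by omega)).2]
      omega
    · have : i = 2 * k + 3 + j := le_antisymm h6 h7
      subst this
      rw [hql, hF4.root b hb]
      omega
  have hcross : ∀ i ≤ k + 1, ∀ i', k + 2 ≤ i' → i' ≤ 2 * k + 3 + j → q i ≠ q i' := by
    intro i h5 i' h6 h7 h8
    have e1 := hh1 i h5
    have e2 := hh2 i' h6 h7
    rw [h8, e2] at e1
    have e3 : p4^[i] (q i) = a := by
      rw [hqy i h5, ← Function.iterate_add_apply, show i + (k + 1 - i) = k + 1 by omega, hpy]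
    have e4 : p4^[i] (q i') = b := by
      rw [hqz i' h6, ← Function.iterate_add_apply, show i + (i' - (k + 2)) = k + 1 + j by omega, hpz]
    exact hab (by rw [← e3, ← e4, h8])
  have hinj : ∀ i ≤ 2 * k + 3 + j, ∀ i' ≤ 2 * k + 3 + j, q i = q i' → i = i' := by
    intro i h5 i' h6 h7
    rcases Nat.lt_or_ge i (k + 2) with h8 | h8 <;> rcases Nat.lt_or_ge i' (k + 2) with h9 | h9
    · have e1 := hh1 i (by omega)
      have e2 := hh1 i' (by omega)
      rw [h7] at e1
      omega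
    · exact absurd h7 (hcross i (by omega) i' h9 h6)
    · exact absurd h7.symm (hcross i' (by omega) i h8 h5)
    · have e1 := hh2 i h8 h5
      have e2 := hh2 i' h9 h6
      rw [h7] at e1
      omega
  refine ⟨q, hq0, hql, hadj, hinj, fun i h5 h6 => ⟨hF4.sub (hqA i h5 h6), hF4.notMem_of_mem (hqA i h5 h6)⟩, ?_⟩
  -- rollback
  have hsub : (Ioo 0 (2 * k + 3 + j)).image q ⊆ A4 := by
    intro x hx
    obtain ⟨i, hi, rfl⟩ := mem_image.1 hx
    rw [mem_Ioo] at hi
    exact hqA i hi.1 hi.2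
  have hclosed : ∀ x ∈ (Ioo 0 (2 * k + 3 + j)).image q, p4 x ∈ W ∪ (Ioo 0 (2 * k + 3 + j)).image q := by
    intro x hx
    obtain ⟨i, hi, rfl⟩ := mem_image.1 hx
    rw [mem_Ioo] at hi
    rcases Nat.lt_or_ge i (k + 2) with h8 | h8
    · rw [hqp1 i hi.1 (by omega)]
      rcases Nat.lt_or_ge 1 i with h9 | h9
      · exact mem_union_right _ (mem_image_of_mem q (mem_Ioo.2 ⟨by omega, by omega⟩))
      · have : i - 1 = 0 := by omega
        rw [this, hq0]
        exact mem_union_left _ ha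
    · rw [hqp2 i h8]
      rcases Nat.lt_or_ge (i + 1) (2 * k + 3 + j) with h9 | h9
      · exact mem_union_right _ (mem_image_of_mem q (mem_Ioo.2 ⟨by omega, h9⟩))
      · have : i + 1 = 2 * k + 3 + j := by omega
        rw [this, hql]
        exact mem_union_left _ hb
  -- the parent of q i
  have hpar : ∀ i, 0 < i → i < 2 * k + 3 + j →
      (i ≤ k + 1 ∧ p4 (q i) = q (i - 1)) ∨ (k + 2 ≤ i ∧ p4 (q i) = q (i + 1)) := by
    intro i h5 h6
    rcases Nat.lt_or_ge i (k + 2) with h8 | h8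
    · exact Or.inl ⟨by omega, hqp1 i h5 (by omega)⟩
    · exact Or.inr ⟨h8, hqp2 i h8⟩
  have hcnt1 : ∀ x, cnt p4 ((Ioo 0 (2 * k + 3 + j)).image q) x ≤ 1 := by
    intro x
    unfold cnt
    rw [card_le_one]
    intro u hu v hv
    obtain ⟨hu1, hu2⟩ := mem_filter.1 hu
    obtain ⟨hv1, hv2⟩ := mem_filter.1 hv
    obtain ⟨i, hi, rfl⟩ := mem_image.1 hu1
    obtain ⟨i', hi', rfl⟩ := mem_image.1 hv1
    rw [mem_Ioo] at hi hi'
    rcases hpar i hi.1 hi.2 with ⟨c1, c2⟩ | ⟨c1, c2⟩ <;> rcases hpar i' hi'.1 hi'.2 with ⟨c3, c4⟩ | ⟨c3, c4⟩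
    · have := hinj (i - 1) (by omega) (i' - 1) (by omega) (by rw [← c2, ← c4, hu2, hv2])
      have : i = i' := by omega
      rw [this]
    · have := hinj (i - 1) (by omega) (i' + 1) (by omega) (by rw [← c2, ← c4, hu2, hv2])
      omega
    · have := hinj (i + 1) (by omega) (i' - 1) (by omega) (by rw [← c2, ← c4, hu2, hv2])
      omega
    · have := hinj (i + 1) (by omega) (i' + 1) (by omega) (by rw [← c2, ← c4, hu2, hv2])
      have : i = i' := by omega
      rw [this]
  have hcnt0 : ∀ x ∈ W, x ≠ a → x ≠ b → cnt p4 ((Ioo 0 (2 * k + 3 + j)).image q) x = 0 := by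
    intro x hx hxa hxb
    unfold cnt
    rw [card_eq_zero, filter_eq_empty_iff]
    intro u hu hux
    obtain ⟨i, hi, rfl⟩ := mem_image.1 hu
    rw [mem_Ioo] at hi
    rcases hpar i hi.1 hi.2 with ⟨c1, c2⟩ | ⟨c1, c2⟩
    · rw [c2] at hux
      rcases Nat.eq_zero_or_pos (i - 1) with h8 | h8
      · rw [h8, hq0] at hux
        exact hxa hux.symm
      · exact hF4.notMem_of_mem (hqA (i - 1) h8 (by omega)) (hux ▸ hx)
    · rw [c2] at hux
      rcases Nat.lt_or_ge (i + 1) (2 * k + 3 + j) with h9 | h9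
      · exact hF4.notMem_of_mem (hqA (i + 1) (by omega) h9) (hux ▸ hx)
      · have : i + 1 = 2 * k + 3 + j := by omega
        rw [this, hql] at hux
        exact hxb hux.symm
  refine (hF4.rollback hsub hclosed).add_edge (fun x hx => ?_) fun x hx => ?_
  · unfold stf
    by_cases hxW : x ∈ W
    · rw [if_pos hxW, if_pos hxW]
      by_cases hxa : x = a
      · have := hcnt1 x
        rw [if_pos hxa]
        omega
      · by_cases hxb : x = b
        · have := hcnt1 x
          rw [if_pos hxb]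
          omega
        · rw [hcnt0 x hxW hxa hxb]
          omega
    · rw [if_neg hxW, if_neg hxW]
      have := hcnt1 x
      omega
  · by_cases hxW : x ∈ W
    · simp only [if_pos hxW]
      by_cases hxa : x = a
      · rw [if_pos hxa, if_neg (fun h' => hab (hxa.symm.trans h')), hxa]
        omega
      · by_cases hxb : x = b
        · rw [if_neg hxa, if_pos hxb, hxb]
          omega
        · rw [if_neg hxa, if_neg hxb]
          exact hE.1 x hxW
    · simp only [if_neg hxW]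
      exact hD

/-- connecting lemma, explicit form for `3 ≤ D` -/
theorem Ext.connect_clog {G : SimpleGraph V} {X : Finset V} {D m : ℕ} {W : Finset V} {f : V → ℕ}
    (hE : Ext G X D m W f) (hJ : Joined G X m) (hm : 1 ≤ m) (hD : 3 ≤ D) {l : ℕ}
    (hl : 2 * Nat.clog (D - 1) m + 3 ≤ l) (hsize : W.card + l + 6 * D * m ≤ X.card) {a b : V} (ha : a ∈ W)
    (haX : a ∈ X) (hb : b ∈ W) (hbX : b ∈ X) (hab : a ≠ b) (hfa : f a < D) (hfb : f b < D) :
    ∃ q : ℕ → V, q 0 = a ∧ q l = b ∧ (∀ i < l, G.Adj (q i) (q (i + 1))) ∧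
      (∀ i ≤ l, ∀ j ≤ l, q i = q j → i = j) ∧ (∀ i, 0 < i → i < l → q i ∈ X ∧ q i ∉ W) ∧
      Ext G X D m (W ∪ (Ioo 0 l).image q)
        (fun x => if x ∈ W then f x + (if x = a then 1 else 0) + (if x = b then 1 else 0) else 2) := by
  have h1 : m ≤ (D - 1) ^ Nat.clog (D - 1) m := Nat.le_pow_clog (by omega) m
  have hgeom : ∀ k, ∑ i ∈ range k, (D - 1) ^ (i + 1) ≤ 2 * (D - 1) ^ k := by
    intro k
    induction k with
    | zero => simp
    | succ k ih =>
      rw [sum_range_succ, pow_succ]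
      have h2 : (D - 1) ^ k * 2 ≤ (D - 1) ^ k * (D - 1) := Nat.mul_le_mul_left _ (by omega)
      omega
  have h2 : ∑ i ∈ range (Nat.clog (D - 1) m), (D - 1) ^ (i + 1) ≤ 2 * (D - 1) * m := by
    rcases Nat.eq_zero_or_pos (Nat.clog (D - 1) m) with h3 | h3
    · rw [h3]
      simp
    · have h4 : 1 < m := by
        by_contra h5
        have : Nat.clog (D - 1) m = 0 := Nat.clog_of_right_le_one (by omega) _
        omega
      have h5 : (D - 1) ^ (Nat.clog (D - 1) m - 1) < m := Nat.pow_pred_clog_lt_self (by omega) h4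
      have h6 : (D - 1) ^ Nat.clog (D - 1) m = (D - 1) ^ (Nat.clog (D - 1) m - 1) * (D - 1) := by
        rw [← pow_succ]
        congr 1
        omega
      have h7 : (D - 1) ^ Nat.clog (D - 1) m ≤ m * (D - 1) := by
        rw [h6]
        exact Nat.mul_le_mul_right _ h5.le
      calc _ ≤ 2 * (D - 1) ^ Nat.clog (D - 1) m := hgeom _
        _ ≤ 2 * (m * (D - 1)) := Nat.mul_le_mul_left _ h7
        _ = _ := by ring
  refine hE.connect hJ hm (by omega) h1 hl (le_trans ?_ hsize) ha haX hb hbX hab hfa hfb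
  obtain ⟨d, rfl⟩ : ∃ d, D = d + 1 := ⟨D - 1, by omega⟩
  rw [Nat.add_sub_cancel] at h2 ⊢
  have h3 : 2 * ∑ i ∈ range (Nat.clog d m), d ^ (i + 1) ≤ 4 * d * m := by
    calc _ ≤ 2 * (2 * d * m) := Nat.mul_le_mul_left _ h2
      _ = _ := by ring
  have h4 : 4 * d * m + (2 * (d + 1) + 3) * m ≤ 6 * (d + 1) * m := by
    nlinarith
  omega

end Pool.Agent.Exp
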