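import Pool.Agent.Exp.FP

/-!
Friedman-Pippenger extendability: forests grown from the used vertices, rollback, connecting two vertices by a path of
a prescribed length.
-/

set_option autoImplicit false

namespace Pool.Agent.Exp

open Finset

variable {V : Type*} [DecidableEq V]

/-- number of children of `x` in `B` -/
def cnt (p : V → V) (B : Finset V) (x : V) : ℕ := (B.filter fun y => p y = x).card

/-- degrees after adding the set `A` of new vertices with parents `p` -/
def stf (W : Finset V) (f : V → ℕ) (p : V → V) (A : Finset V) (x : V) : ℕ :=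
  (if x ∈ W then f x else 1) + cnt p A x

theorem sum_cnt (p : V → V) (B S : Finset V) : ∑ x ∈ S, cnt p B x = (B.filter fun y => p y ∈ S).card := by
  have hmap : Set.MapsTo p ((B.filter fun y => p y ∈ S : Finset V) : Set V) (S : Set V) := fun y hy =>
    (mem_filter.1 (Finset.mem_coe.1 hy)).2
  rw [card_eq_sum_card_fiberwise hmap]
  refine sum_congr rfl fun x hx => ?_
  unfold cnt
  congr 1
  ext y
  simp only [mem_filter]
  constructor
  · rintro ⟨h1, rfl⟩
    exact ⟨⟨h1, hx⟩, rfl⟩
  · rintro ⟨⟨h1, _⟩, h2⟩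
    exact ⟨h1, h2⟩

theorem cnt_sdiff (p : V → V) {A A' : Finset V} (h : A' ⊆ A) (x : V) : cnt p A x = cnt p A' x + cnt p (A \ A') x := by
  unfold cnt
  rw [← card_union_of_disjoint]
  · congr 1
    ext y
    simp only [mem_filter, mem_union, mem_sdiff]
    constructor
    · rintro ⟨h1, h2⟩
      by_cases h3 : y ∈ A'
      · exact Or.inl ⟨h3, h2⟩
      · exact Or.inr ⟨⟨h1, h3⟩, h2⟩
    · rintro (⟨h1, h2⟩ | ⟨⟨h1, _⟩, h2⟩)
      · exact ⟨h h1, h2⟩
      · exact ⟨h1, h2⟩
  · rw [Finset.disjoint_left]
    intro y h1 h2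
    exact (mem_sdiff.1 (mem_filter.1 h2).1).2 (mem_filter.1 h1).1

theorem cnt_mono (p : V → V) {A A' : Finset V} (h : A' ⊆ A) (x : V) : cnt p A' x ≤ cnt p A x := by
  rw [cnt_sdiff p h]
  exact Nat.le_add_right _ _

/-- a forest of new vertices `A` with roots in `W` -/
structure Forest (G : SimpleGraph V) (X : Finset V) (D m : ℕ) (W : Finset V) (f : V → ℕ) (A : Finset V)
    (p : V → V) (h : V → ℕ) : Prop where
  disj : Disjoint W A
  sub : A ⊆ X
  par : ∀ y ∈ A, p y ∈ W ∪ A
  adj : ∀ y ∈ A, G.Adj (p y) y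
  hgt : ∀ y ∈ A, h y = h (p y) + 1
  root : ∀ x ∈ W, h x = 0
  ext : Ext G X D m (W ∪ A) (stf W f p A)

/-- **rollback**: any part closed under parents is again extendable -/
theorem Forest.rollback {G : SimpleGraph V} {X : Finset V} {D m : ℕ} {W : Finset V} {f : V → ℕ} {A : Finset V}
    {p : V → V} {h : V → ℕ} (hF : Forest G X D m W f A p h) {A' : Finset V} (hA : A' ⊆ A)
    (hc : ∀ y ∈ A', p y ∈ W ∪ A') : Ext G X D m (W ∪ A') (stf W f p A') := by
  have hWA : W ∪ A' ⊆ W ∪ A := union_subset_union (Subset.refl _) hA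
  refine ⟨fun v hv => ?_, fun U hU hcard => ?_⟩
  · exact (Nat.add_le_add_left (cnt_mono p hA v) _).trans (hF.ext.1 v (hWA hv))
  · refine (hF.ext.2 U hU hcard).trans ?_
    have hsplit : W ∪ A = (W ∪ A') ∪ (A \ A') := by
      rw [union_assoc, union_sdiff_of_subset hA]
    have hdis : Disjoint (W ∪ A') (A \ A') := by
      rw [Finset.disjoint_left]
      intro x hx hx'
      obtain ⟨h1, h2⟩ := mem_sdiff.1 hx'
      rcases mem_union.1 hx with h3 | h3
      · exact (Finset.disjoint_left.1 hF.disj h3) h1
      · exact h2 h3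
    -- the neighbours
    have hn : (nb G X U \ (W ∪ A')).card = (nb G X U \ (W ∪ A)).card + (nb G X U ∩ (A \ A')).card := by
      rw [← card_union_of_disjoint]
      · congr 1
        ext x
        simp only [mem_sdiff, mem_union, mem_inter]
        constructor
        · rintro ⟨h1, h2⟩
          by_cases h3 : x ∈ A
          · exact Or.inr ⟨h1, h3, fun h4 => h2 (Or.inr h4)⟩
          · exact Or.inl ⟨h1, fun h4 => h4.elim (fun h5 => h2 (Or.inl h5)) h3⟩
        · rintro (⟨h1, h2⟩ | ⟨h1, h2, h3⟩)
          · exact ⟨h1, fun h4 => h4.elim (fun h5 => h2 (Or.inl h5)) fun h5 => h2 (Or.inr (hA h5))⟩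
          · exact ⟨h1, fun h4 => h4.elim (fun h5 => (Finset.disjoint_left.1 hF.disj h5) h2) h3⟩
      · rw [Finset.disjoint_left]
        intro x h1 h2
        exact (mem_sdiff.1 h1).2 (mem_union_right _ (mem_sdiff.1 (mem_inter.1 h2).2).1)
    -- the degrees
    have hs : ∑ x ∈ U ∩ (W ∪ A), ((stf W f p A x : ℤ) - 1) = ∑ x ∈ U ∩ (W ∪ A'), ((stf W f p A' x : ℤ) - 1)
        + (((A \ A').filter fun y => p y ∈ U).card : ℤ) := by
      have e0 : U ∩ (W ∪ A) = (U ∩ (W ∪ A')) ∪ (U ∩ (A \ A')) := by
        rw [hsplit, inter_union_distrib_left]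
      have e1 : Disjoint (U ∩ (W ∪ A')) (U ∩ (A \ A')) :=
        hdis.mono inter_subset_right inter_subset_right
      rw [e0, sum_union e1]
      have e2 : ∑ x ∈ U ∩ (W ∪ A'), ((stf W f p A x : ℤ) - 1) = ∑ x ∈ U ∩ (W ∪ A'), ((stf W f p A' x : ℤ) - 1)
          + ∑ x ∈ U ∩ (W ∪ A'), (cnt p (A \ A') x : ℤ) := by
        rw [← sum_add_distrib]
        refine sum_congr rfl fun x _ => ?_
        unfold stf
        rw [cnt_sdiff p hA x]
        push_cast
        ring
      have e3 : ∑ x ∈ U ∩ (A \ A'), ((stf W f p A x : ℤ) - 1) = ∑ x ∈ U ∩ (A \ A'), (cnt p (A \ A') x : ℤ) := by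
        refine sum_congr rfl fun x hx => ?_
        obtain ⟨hx1, hx2⟩ := mem_sdiff.1 (mem_inter.1 hx).2
        have hxW : x ∉ W := fun h5 => (Finset.disjoint_left.1 hF.disj h5) hx1
        have hz : cnt p A' x = 0 := by
          unfold cnt
          rw [card_eq_zero, filter_eq_empty_iff]
          intro y hy hyx
          rcases mem_union.1 (hc y hy) with h6 | h6
          · exact hxW (hyx ▸ h6)
          · exact hx2 (hyx ▸ h6)
        unfold stf
        rw [if_neg hxW, cnt_sdiff p hA x, hz]
        push_cast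
        ring
      rw [e2, e3, add_assoc, ← sum_union e1, ← e0]
      congr 1
      have e4 : ((∑ x ∈ U ∩ (W ∪ A), cnt p (A \ A') x : ℕ) : ℤ) = (((A \ A').filter fun y => p y ∈ U).card : ℤ) := by
        rw [sum_cnt]
        congr 2
        ext y
        simp only [mem_filter, mem_inter]
        constructor
        · rintro ⟨h1, h2, _⟩
          exact ⟨h1, h2⟩
        · rintro ⟨h1, h2⟩
          exact ⟨h1, h2, hF.par y (mem_sdiff.1 h1).1⟩
      rw [← e4]
      push_cast
      rfl
    have hle : ((A \ A').filter fun y => p y ∈ U).card ≤ (nb G X U ∩ (A \ A')).card := by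
      refine card_le_card fun y hy => ?_
      obtain ⟨h1, h2⟩ := mem_filter.1 hy
      have hyA := (mem_sdiff.1 h1).1
      exact mem_inter.2 ⟨mem_nb.2 ⟨hF.sub hyA, p y, h2, hF.adj y hyA⟩, h1⟩
    unfold room
    rw [hs, hn]
    push_cast
    have : (((A \ A').filter fun y => p y ∈ U).card : ℤ) ≤ (nb G X U ∩ (A \ A')).card := by exact_mod_cast hle
    linarith

/-- the empty forest -/
theorem Forest.nil {G : SimpleGraph V} {X : Finset V} {D m : ℕ} {W : Finset V} {f : V → ℕ}
    (h : Ext G X D m W f) (p : V → V) : Forest G X D m W f ∅ p fun _ => 0 where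
  disj := disjoint_empty_right _
  sub := empty_subset _
  par := fun y hy => absurd hy (notMem_empty y)
  adj := fun y hy => absurd hy (notMem_empty y)
  hgt := fun y hy => absurd hy (notMem_empty y)
  root := fun _ _ => rfl
  ext := by
    rw [union_empty]
    refine h.congr fun x hx => ?_
    simp [stf, cnt, hx]

theorem cnt_update {p : V → V} {A : Finset V} {y s : V} (hy : y ∉ A) (x : V) :
    cnt (Function.update p y s) (insert y A) x = cnt p A x + (if s = x then 1 else 0) := by
  unfold cnt
  rw [filter_insert, Function.update_self]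
  have e : (A.filter fun z => Function.update p y s z = x) = A.filter fun z => p z = x := by
    refine filter_congr fun z hz => ?_
    have hzy : z ≠ y := fun h => hy (h ▸ hz)
    rw [Function.update_of_ne hzy]
  rw [e]
  by_cases h : s = x
  · rw [if_pos h, if_pos h, card_insert_of_notMem fun h' => hy (mem_filter.1 h').1]
  · rw [if_neg h, if_neg h]
    rfl

/-- one more leaf -/
theorem Forest.leaf {G : SimpleGraph V} {X : Finset V} {D m : ℕ} {W : Finset V} {f : V → ℕ} {A : Finset V}
    {p : V → V} {h : V → ℕ} (hF : Forest G X D m W f A p h) (hJ : Joined G X m) (hm : 1 ≤ m)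
    (hsize : (W ∪ A).card + (2 * D + 3) * m ≤ X.card) {s : V} (hs : s ∈ W ∪ A) (hsX : s ∈ X)
    (hd : stf W f p A s < D) :
    ∃ y ∈ X, y ∉ W ∪ A ∧ Forest G X D m W f (insert y A) (Function.update p y s) (Function.update h y (h s + 1)) ∧
      (∀ x, x ≠ y → stf W f (Function.update p y s) (insert y A) x = stf W f p A x + (if s = x then 1 else 0)) ∧
      stf W f (Function.update p y s) (insert y A) y = 1 := by
  obtain ⟨y, hyX, hyWA, hadj, hext⟩ := hF.ext.add_leaf hJ hm hsize hs hsX hd
  have hyW : y ∉ W := fun h' => hyWA (mem_union_left _ h')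
  have hyA : y ∉ A := fun h' => hyWA (mem_union_right _ h')
  have hsy : s ≠ y := fun h' => hyWA (h' ▸ hs)
  have e1 : ∀ x, x ≠ y → stf W f (Function.update p y s) (insert y A) x
      = stf W f p A x + (if s = x then 1 else 0) := by
    intro x _
    unfold stf
    rw [cnt_update hyA, add_assoc]
  have e2 : stf W f (Function.update p y s) (insert y A) y = 1 := by
    unfold stf
    rw [cnt_update hyA, if_neg hyW, if_neg hsy]
    have : cnt p A y = 0 := by
      unfold cnt
      rw [card_eq_zero, filter_eq_empty_iff]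
      intro z hz hzy
      exact hyWA (hzy ▸ hF.par z hz)
    rw [this]
  refine ⟨y, hyX, hyWA, ?_, e1, e2⟩
  have hne : ∀ z ∈ A, z ≠ y := fun z hz h' => hyA (h' ▸ hz)
  have hpne : ∀ z ∈ A, p z ≠ y := fun z hz h' => hyWA (h' ▸ hF.par z hz)
  have hU : W ∪ insert y A = insert y (W ∪ A) := union_insert y W A
  refine
    { disj := ?_
      sub := insert_subset hyX hF.sub
      par := ?_
      adj := ?_
      hgt := ?_
      root := ?_
      ext := ?_ }
  · rw [Finset.disjoint_insert_right]
    exact ⟨hyW, hF.disj⟩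
  · intro z hz
    rw [hU]
    rcases mem_insert.1 hz with rfl | hz
    · rw [Function.update_self]
      exact mem_insert_of_mem hs
    · rw [Function.update_of_ne (hne z hz)]
      exact mem_insert_of_mem (hF.par z hz)
  · intro z hz
    rcases mem_insert.1 hz with rfl | hz
    · rw [Function.update_self]
      exact hadj
    · rw [Function.update_of_ne (hne z hz)]
      exact hF.adj z hz
  · intro z hz
    rcases mem_insert.1 hz with rfl | hz
    · rw [Function.update_self, Function.update_self, Function.update_of_ne hsy]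
    · rw [Function.update_of_ne (hne z hz), Function.update_of_ne (hne z hz), Function.update_of_ne (hpne z hz)]
      exact hF.hgt z hz
  · intro x hx
    rw [Function.update_of_ne (show x ≠ y from fun h' => hyW (h' ▸ hx))]
    exact hF.root x hx
  · rw [hU]
    refine hext.congr fun x hx => ?_
    by_cases hxy : x = y
    · subst hxy
      rw [Function.update_self, e2]
    · rw [Function.update_of_ne hxy, e1 x hxy]
      by_cases hxs : x = s
      · subst hxs
        rw [Function.update_self, if_pos rfl]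
      · rw [Function.update_of_ne hxs, if_neg (Ne.symm hxs)]
        rfl

/-- many leaves with a prescribed multiset of parents -/
theorem Forest.leaves {G : SimpleGraph V} {X : Finset V} {D m : ℕ} {W : Finset V} {f : V → ℕ} {A : Finset V}
    {p : V → V} {h : V → ℕ} (hF : Forest G X D m W f A p h) (hJ : Joined G X m) (hm : 1 ≤ m) (M : Multiset V) :
    (∀ s ∈ M, s ∈ W ∪ A ∧ s ∈ X ∧ stf W f p A s + M.count s ≤ D) →
    (W ∪ A).card + M.card + (2 * D + 3) * m ≤ X.card →
    ∃ (A' : Finset V) (p' : V → V) (h' : V → ℕ), Forest G X D m W f A' p' h' ∧ A ⊆ A' ∧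
      (∀ x ∈ W ∪ A, p' x = p x ∧ h' x = h x) ∧ (A' \ A).card = M.card ∧ (∀ y ∈ A' \ A, p' y ∈ M) ∧
      (∀ y ∈ A' \ A, stf W f p' A' y = 1) ∧ ∀ x ∈ W ∪ A, stf W f p' A' x = stf W f p A x + M.count x := by
  induction M using Multiset.induction_on with
  | empty =>
    intro _ _
    exact ⟨A, p, h, hF, Subset.refl _, fun x _ => ⟨rfl, rfl⟩, by simp, by simp, by simp, by simp⟩
  | cons s M ih =>
    intro h1 h2
    rw [Multiset.card_cons] at h2
    obtain ⟨A1, p1, h1', hF1, hA1, hag, hcard, hpar, hst, hst'⟩ := ih (fun t ht => by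
      obtain ⟨e1, e2, e3⟩ := h1 t (Multiset.mem_cons_of_mem ht)
      exact ⟨e1, e2, (Nat.add_le_add_left (Multiset.count_le_count_cons t s M) _).trans e3⟩) (by omega)
    obtain ⟨hs1, hs2, hs3⟩ := h1 s (Multiset.mem_cons_self s M)
    have hWA : W ∪ A ⊆ W ∪ A1 := union_subset_union (Subset.refl _) hA1
    have hc1 : (W ∪ A1).card = (W ∪ A).card + M.card := by
      have e1 : W ∪ A1 = (W ∪ A) ∪ (A1 \ A) := by
        rw [union_assoc, union_sdiff_of_subset hA1]
      rw [e1, card_union_of_disjoint, hcard]
      rw [Finset.disjoint_left]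
      intro x hx hx'
      obtain ⟨h3, h4⟩ := mem_sdiff.1 hx'
      rcases mem_union.1 hx with h5 | h5
      · exact (Finset.disjoint_left.1 hF1.disj h5) h3
      · exact h4 h5
    rw [Multiset.count_cons_self] at hs3
    obtain ⟨y, hyX, hyWA, hF2, e1, e2⟩ := hF1.leaf hJ hm (by omega) (hWA hs1) hs2 (by
      rw [hst' s hs1]
      omega)
    have hyA1 : y ∉ A1 := fun h' => hyWA (mem_union_right _ h')
    have hyA : y ∉ A := fun h' => hyA1 (hA1 h')
    have hsd : insert y A1 \ A = insert y (A1 \ A) := by
      ext z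
      simp only [mem_sdiff, mem_insert]
      constructor
      · rintro ⟨h3 | h3, h4⟩
        · exact Or.inl h3
        · exact Or.inr ⟨h3, h4⟩
      · rintro (h3 | ⟨h3, h4⟩)
        · exact ⟨Or.inl h3, h3 ▸ hyA⟩
        · exact ⟨Or.inr h3, h4⟩
    have hneq : ∀ x ∈ W ∪ A1, x ≠ y := fun x hx h' => hyWA (h' ▸ hx)
    refine ⟨insert y A1, _, _, hF2, hA1.trans (subset_insert _ _), ?_, ?_, ?_, ?_, ?_⟩
    · intro x hx
      rw [Function.update_of_ne (hneq x (hWA hx)), Function.update_of_ne (hneq x (hWA hx))]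
      exact hag x hx
    · rw [hsd, card_insert_of_notMem (fun h' => hyA1 (mem_sdiff.1 h').1), hcard, Multiset.card_cons]
    · intro z hz
      rw [hsd] at hz
      rcases mem_insert.1 hz with rfl | hz
      · rw [Function.update_self]
        exact Multiset.mem_cons_self _ _
      · rw [Function.update_of_ne (hneq z (mem_union_right _ (mem_sdiff.1 hz).1))]
        exact Multiset.mem_cons_of_mem (hpar z hz)
    · intro z hz
      rw [hsd] at hz
      rcases mem_insert.1 hz with rfl | hz
      · exact e2
      · obtain ⟨hz1, hz2⟩ := mem_sdiff.1 hz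
        rw [e1 z (hneq z (mem_union_right _ hz1)), hst z hz, if_neg]
        rintro rfl
        rcases mem_union.1 hs1 with h5 | h5
        · exact (Finset.disjoint_left.1 hF1.disj h5) hz1
        · exact hz2 h5
    · intro x hx
      rw [e1 x (hneq x (hWA hx)), hst' x hx, add_assoc]
      congr 1
      by_cases hsx : s = x
      · subst hsx
        rw [if_pos rfl, Multiset.count_cons_self]
      · rw [if_neg hsx, Multiset.count_cons_of_ne (Ne.symm hsx)]
        rfl

/-- heights along the way to the root -/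
theorem Forest.iter {G : SimpleGraph V} {X : Finset V} {D m : ℕ} {W : Finset V} {f : V → ℕ} {A : Finset V}
    {p : V → V} {h : V → ℕ} (hF : Forest G X D m W f A p h) {y : V} (hy : y ∈ A) (i : ℕ) (hi : i < h y) :
    p^[i] y ∈ A ∧ h (p^[i] y) = h y - i := by
  induction i with
  | zero => exact ⟨hy, by simp⟩
  | succ i ih =>
    obtain ⟨h1, h2⟩ := ih (by omega)
    rw [Function.iterate_succ_apply']
    have h3 := hF.hgt _ h1
    have h4 : h (p (p^[i] y)) = h y - (i + 1) := by omega
    refine ⟨?_, h4⟩
    rcases mem_union.1 (hF.par _ h1) with h5 | h5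
    · have := hF.root _ h5
      omega
    · exact h5

/-- extensions of a forest do not change the way to the root -/
theorem Forest.iter_congr {G : SimpleGraph V} {X : Finset V} {D m : ℕ} {W : Finset V} {f : V → ℕ} {A : Finset V}
    {p p' : V → V} {h : V → ℕ} (hF : Forest G X D m W f A p h) (hp : ∀ x ∈ W ∪ A, p' x = p x) {y : V} (hy : y ∈ A)
    (i : ℕ) (hi : i ≤ h y) : p'^[i] y = p^[i] y := by
  induction i with
  | zero => rfl
  | succ i ih =>
    rw [Function.iterate_succ_apply', Function.iterate_succ_apply', ih (by omega)]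
    exact hp _ (mem_union_right _ (hF.iter hy i (by omega)).1)

end Pool.Agent.Exp
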