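import Mathlib

/-!
# Moment inequality for random sums of rank one matrices

For vectors `w v` with `∑ (w v ⬝ x)^2 ≤ L |x|^2` and `|w v|^2 ≤ s`, and a random subset `S` in
which every `v` is included independently with probability `p`, the matrix
`X S = ∑_{v ∈ S} w v (w v)^T` satisfies `E tr (X S)^q ≤ N (p L + q s)^q`.
-/

namespace Pool.Agent.Exp

open Matrix Finset

noncomputable section

variable {ι : Type*} [Fintype ι] [DecidableEq ι]

/-- spectral form of the mixed moments of a positive semidefinite matrix -/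
lemma exists_spec (Y : Matrix ι ι ℝ) (hY : Y.PosSemidef) (w : ι → ℝ) :
    ∃ lam c : ι → ℝ, (∀ i, 0 ≤ lam i) ∧ ∀ (k l : ℕ) (s : ℝ),
      w ⬝ᵥ ((Y ^ k * (Y + s • (1 : Matrix ι ι ℝ)) ^ l) *ᵥ w)
        = ∑ i, c i ^ 2 * (lam i ^ k * (lam i + s) ^ l) := by
  classical
  set hH := hY.isHermitian with hHdef
  set U := hH.eigenvectorUnitary with hU
  refine ⟨hH.eigenvalues, (star (U : Matrix ι ι ℝ)) *ᵥ w, fun i => hY.eigenvalues_nonneg i, ?_⟩
  intro k l s
  have hspec : Y = (U : Matrix ι ι ℝ) * diagonal hH.eigenvalues * star (U : Matrix ι ι ℝ) := by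
    have h := hH.spectral_theorem
    rw [Unitary.conjStarAlgAut_apply] at h
    exact h
  have hUU : star (U : Matrix ι ι ℝ) * (U : Matrix ι ι ℝ) = 1 := Unitary.coe_star_mul_self U
  have hUU' : (U : Matrix ι ι ℝ) * star (U : Matrix ι ι ℝ) = 1 := Unitary.coe_mul_star_self U
  have hpow : ∀ (D : Matrix ι ι ℝ) (k : ℕ),
      ((U : Matrix ι ι ℝ) * D * star (U : Matrix ι ι ℝ)) ^ k
        = (U : Matrix ι ι ℝ) * D ^ k * star (U : Matrix ι ι ℝ) := by
    intro D k
    induction k with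
    | zero => simp [hUU']
    | succ k ih =>
      rw [pow_succ, ih, pow_succ]
      calc (U : Matrix ι ι ℝ) * D ^ k * star (U : Matrix ι ι ℝ)
            * ((U : Matrix ι ι ℝ) * D * star (U : Matrix ι ι ℝ))
          = (U : Matrix ι ι ℝ) * D ^ k * (star (U : Matrix ι ι ℝ) * (U : Matrix ι ι ℝ)) * D
            * star (U : Matrix ι ι ℝ) := by simp only [Matrix.mul_assoc]
        _ = _ := by rw [hUU]; simp only [Matrix.mul_assoc, Matrix.mul_one]
  have hYs : Y + s • (1 : Matrix ι ι ℝ)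
      = (U : Matrix ι ι ℝ) * diagonal (fun i => hH.eigenvalues i + s) * star (U : Matrix ι ι ℝ) := by
    have h1 : diagonal (fun i => hH.eigenvalues i + s)
        = diagonal hH.eigenvalues + s • (1 : Matrix ι ι ℝ) := by
      ext i j
      by_cases hij : i = j
      · subst hij; simp
      · simp [hij]
    rw [h1, Matrix.mul_add, Matrix.add_mul, ← hspec]
    simp [hUU']
  have hprod : Y ^ k * (Y + s • (1 : Matrix ι ι ℝ)) ^ l
      = (U : Matrix ι ι ℝ) * diagonal (fun i => hH.eigenvalues i ^ k * (hH.eigenvalues i + s) ^ l)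
        * star (U : Matrix ι ι ℝ) := by
    have hYk : Y ^ k = (U : Matrix ι ι ℝ) * diagonal (fun i => hH.eigenvalues i ^ k)
        * star (U : Matrix ι ι ℝ) := by
      conv_lhs => rw [hspec]
      rw [hpow, Matrix.diagonal_pow]
      rfl
    rw [hYk, hYs, hpow, Matrix.diagonal_pow]
    calc (U : Matrix ι ι ℝ) * diagonal (fun i => hH.eigenvalues i ^ k) * star (U : Matrix ι ι ℝ)
          * ((U : Matrix ι ι ℝ) * diagonal ((fun i => hH.eigenvalues i + s) ^ l)
            * star (U : Matrix ι ι ℝ))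
        = (U : Matrix ι ι ℝ) * (diagonal (fun i => hH.eigenvalues i ^ k)
          * (star (U : Matrix ι ι ℝ) * (U : Matrix ι ι ℝ))
          * diagonal ((fun i => hH.eigenvalues i + s) ^ l)) * star (U : Matrix ι ι ℝ) := by
          simp only [Matrix.mul_assoc]
      _ = _ := by
          rw [hUU, Matrix.mul_one, Matrix.diagonal_mul_diagonal]
          rfl
  rw [hprod]
  have h2 : ∀ D : ι → ℝ, w ⬝ᵥ (((U : Matrix ι ι ℝ) * diagonal D * star (U : Matrix ι ι ℝ)) *ᵥ w)
      = ∑ i, ((star (U : Matrix ι ι ℝ)) *ᵥ w) i ^ 2 * D i := by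
    intro D
    rw [← Matrix.mulVec_mulVec, ← Matrix.mulVec_mulVec, Matrix.dotProduct_mulVec]
    have h3 : w ᵥ* (U : Matrix ι ι ℝ) = (star (U : Matrix ι ι ℝ)) *ᵥ w := by
      rw [Matrix.star_eq_conjTranspose, Matrix.conjTranspose_eq_transpose_of_trivial,
        Matrix.mulVec_transpose]
    rw [h3]
    simp only [dotProduct, Matrix.mulVec_diagonal]
    refine Finset.sum_congr rfl fun i _ => ?_
    ring
  rw [h2]

omit [DecidableEq ι] in
/-- Chebyshev's inequality with weights -/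
lemma cheb (c f g : ι → ℝ) (hfg : ∀ i j, 0 ≤ (f i - f j) * (g i - g j)) :
    (∑ i, c i ^ 2 * f i) * (∑ i, c i ^ 2 * g i)
      ≤ (∑ i, c i ^ 2) * (∑ i, c i ^ 2 * (f i * g i)) := by
  have h : 0 ≤ ∑ i, ∑ j, c i ^ 2 * c j ^ 2 * ((f i - f j) * (g i - g j)) := by
    refine Finset.sum_nonneg fun i _ => Finset.sum_nonneg fun j _ => ?_
    exact mul_nonneg (by positivity) (hfg i j)
  have e1 : ∑ i, ∑ j, c i ^ 2 * c j ^ 2 * ((f i - f j) * (g i - g j))
      = 2 * ((∑ i, c i ^ 2) * (∑ i, c i ^ 2 * (f i * g i)))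
        - 2 * ((∑ i, c i ^ 2 * f i) * (∑ i, c i ^ 2 * g i)) := by
    have a1 : (∑ i, c i ^ 2) * (∑ i, c i ^ 2 * (f i * g i))
        = ∑ i, ∑ j, c i ^ 2 * (c j ^ 2 * (f j * g j)) := by
      rw [Finset.sum_mul_sum]
    have a2 : (∑ i, c i ^ 2) * (∑ i, c i ^ 2 * (f i * g i))
        = ∑ i, ∑ j, c i ^ 2 * (f i * g i) * c j ^ 2 := by
      rw [mul_comm, Finset.sum_mul_sum]
    have a3 : (∑ i, c i ^ 2 * f i) * (∑ i, c i ^ 2 * g i)
        = ∑ i, ∑ j, c i ^ 2 * f i * (c j ^ 2 * g j) := by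
      rw [Finset.sum_mul_sum]
    have a4 : (∑ i, c i ^ 2 * f i) * (∑ i, c i ^ 2 * g i)
        = ∑ i, ∑ j, c i ^ 2 * g i * (c j ^ 2 * f j) := by
      rw [mul_comm, Finset.sum_mul_sum]
    have : 2 * ((∑ i, c i ^ 2) * (∑ i, c i ^ 2 * (f i * g i)))
        - 2 * ((∑ i, c i ^ 2 * f i) * (∑ i, c i ^ 2 * g i))
        = (∑ i, ∑ j, c i ^ 2 * (c j ^ 2 * (f j * g j)))
          + (∑ i, ∑ j, c i ^ 2 * (f i * g i) * c j ^ 2)
          - (∑ i, ∑ j, c i ^ 2 * f i * (c j ^ 2 * g j))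
          - (∑ i, ∑ j, c i ^ 2 * g i * (c j ^ 2 * f j)) := by
      rw [← a1, ← a2, ← a3, ← a4]; ring
    rw [this]
    simp only [← Finset.sum_add_distrib, ← Finset.sum_sub_distrib]
    refine Finset.sum_congr rfl fun i _ => Finset.sum_congr rfl fun j _ => ?_
    ring
  rw [e1] at h
  linarith

/-- the moments of `Y` at `w` -/
def mom (Y : Matrix ι ι ℝ) (w : ι → ℝ) (k : ℕ) : ℝ := w ⬝ᵥ (Y ^ k *ᵥ w)

lemma mom_zero (Y : Matrix ι ι ℝ) (w : ι → ℝ) : mom Y w 0 = w ⬝ᵥ w := by simp [mom]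

lemma pow_mulVec_rank_one (Y : Matrix ι ι ℝ) (w : ι → ℝ) (m : ℕ) :
    (Y + vecMulVec w w) ^ m *ᵥ w
      = Y ^ m *ᵥ w + ∑ k ∈ range m, mom (Y + vecMulVec w w) w (m - 1 - k) • (Y ^ k *ᵥ w) := by
  induction m with
  | zero => simp
  | succ m ih =>
    have h1 : (Y + vecMulVec w w) ^ (m + 1) *ᵥ w
        = Y *ᵥ ((Y + vecMulVec w w) ^ m *ᵥ w) + mom (Y + vecMulVec w w) w m • w := by
      rw [pow_succ', ← Matrix.mulVec_mulVec, Matrix.add_mulVec]
      congr 1
      rw [Matrix.vecMulVec_mulVec]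
      simp [mom]
    rw [h1, Finset.sum_range_succ']
    nth_rewrite 1 [ih]
    rw [Matrix.mulVec_add, Matrix.mulVec_sum]
    have h2 : ∀ k ∈ range m, Y *ᵥ (mom (Y + vecMulVec w w) w (m - 1 - k) • (Y ^ k *ᵥ w))
        = mom (Y + vecMulVec w w) w (m + 1 - 1 - (k + 1)) • (Y ^ (k + 1) *ᵥ w) := by
      intro k hk
      rw [Matrix.mulVec_smul, Matrix.mulVec_mulVec, ← pow_succ']
      congr 2
      have := Finset.mem_range.1 hk
      omega
    rw [Finset.sum_congr rfl h2, Matrix.mulVec_mulVec, ← pow_succ']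
    simp [add_assoc]

lemma mom_rank_one (Y : Matrix ι ι ℝ) (w : ι → ℝ) (m : ℕ) :
    mom (Y + vecMulVec w w) w m
      = mom Y w m + ∑ k ∈ range m, mom (Y + vecMulVec w w) w (m - 1 - k) * mom Y w k := by
  conv_lhs => rw [mom, pow_mulVec_rank_one]
  rw [dotProduct_add, dotProduct_sum]
  simp [mom, dotProduct_smul]

omit [DecidableEq ι] in
lemma posSemidef_vecMulVec (w : ι → ℝ) : (vecMulVec w w).PosSemidef := by
  have h := Matrix.posSemidef_vecMulVec_self_star w
  simpa using h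

lemma mom_nonneg {Y : Matrix ι ι ℝ} (hY : Y.PosSemidef) (w : ι → ℝ) (k : ℕ) :
    0 ≤ mom Y w k := by
  obtain ⟨lam, c, hl, hs⟩ := exists_spec Y hY w
  have h := hs k 0 0
  simp only [pow_zero, mul_one] at h
  rw [mom, h]
  exact Finset.sum_nonneg fun i _ => mul_nonneg (sq_nonneg _) (pow_nonneg (hl i) _)

omit [Fintype ι] in
lemma posSemidef_add_smul_one {Y : Matrix ι ι ℝ} (hY : Y.PosSemidef) {s : ℝ} (hs : 0 ≤ s) :
    (Y + s • (1 : Matrix ι ι ℝ)).PosSemidef :=
  hY.add (Matrix.PosSemidef.one.smul hs)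

/-- adding a rank one matrix at `w` raises the moments at `w` by at most the shift by `s` -/
lemma mom_rank_one_le {Y : Matrix ι ι ℝ} (hY : Y.PosSemidef) (w : ι → ℝ) {s : ℝ}
    (hs : w ⬝ᵥ w ≤ s) (m : ℕ) :
    mom (Y + vecMulVec w w) w m ≤ mom (Y + s • (1 : Matrix ι ι ℝ)) w m := by
  have hww : 0 ≤ w ⬝ᵥ w := Finset.sum_nonneg fun i _ => mul_self_nonneg (w i)
  have hs0 : 0 ≤ s := hww.trans hs
  obtain ⟨lam, c, hl, hsp⟩ := exists_spec Y hY w
  have hY0 : ∀ k, mom Y w k = ∑ i, c i ^ 2 * lam i ^ k := by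
    intro k
    have h := hsp k 0 s
    simp only [pow_zero, mul_one] at h
    exact h
  have hYs : ∀ k, mom (Y + s • (1 : Matrix ι ι ℝ)) w k = ∑ i, c i ^ 2 * (lam i + s) ^ k := by
    intro k
    have h := hsp 0 k s
    simp only [pow_zero, one_mul] at h
    exact h
  have hc0 : w ⬝ᵥ w = ∑ i, c i ^ 2 := by
    have h := hY0 0
    simpa [mom_zero] using h
  induction m using Nat.strong_induction_on with
  | _ m ih =>
    rw [mom_rank_one]
    have h1 : ∀ k ∈ range m, mom (Y + vecMulVec w w) w (m - 1 - k) * mom Y w k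
        ≤ s * ∑ i, c i ^ 2 * (lam i ^ k * (lam i + s) ^ (m - 1 - k)) := by
      intro k hk
      have hk' := Finset.mem_range.1 hk
      have h2 := ih (m - 1 - k) (by omega)
      have h3 : mom (Y + vecMulVec w w) w (m - 1 - k) * mom Y w k
          ≤ mom Y w k * mom (Y + s • (1 : Matrix ι ι ℝ)) w (m - 1 - k) := by
        rw [mul_comm]
        exact mul_le_mul_of_nonneg_left h2 (mom_nonneg hY w k)
      refine h3.trans ?_
      rw [hY0, hYs]
      have h4 := cheb c (fun i => lam i ^ k) (fun i => (lam i + s) ^ (m - 1 - k)) (by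
        intro i j
        rcases le_total (lam i) (lam j) with hij | hij
        · have a1 : lam i ^ k ≤ lam j ^ k := pow_le_pow_left₀ (hl i) hij k
          have a2 : (lam i + s) ^ (m - 1 - k) ≤ (lam j + s) ^ (m - 1 - k) :=
            pow_le_pow_left₀ (by have := hl i; linarith) (by linarith) _
          exact mul_nonneg_of_nonpos_of_nonpos (by linarith) (by linarith)
        · have a1 : lam j ^ k ≤ lam i ^ k := pow_le_pow_left₀ (hl j) hij k
          have a2 : (lam j + s) ^ (m - 1 - k) ≤ (lam i + s) ^ (m - 1 - k) :=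
            pow_le_pow_left₀ (by have := hl j; linarith) (by linarith) _
          exact mul_nonneg (by linarith) (by linarith))
      refine h4.trans ?_
      rw [← hc0]
      refine mul_le_mul_of_nonneg_right hs ?_
      refine Finset.sum_nonneg fun i _ => mul_nonneg (sq_nonneg _) ?_
      exact mul_nonneg (pow_nonneg (hl i) _) (pow_nonneg (by have := hl i; linarith) _)
    have h5 := Finset.sum_le_sum h1
    have h6 : mom Y w m + ∑ k ∈ range m, s * ∑ i, c i ^ 2 * (lam i ^ k * (lam i + s) ^ (m - 1 - k))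
        = mom (Y + s • (1 : Matrix ι ι ℝ)) w m := by
      rw [hY0, hYs, ← Finset.mul_sum, Finset.sum_comm, Finset.mul_sum, ← Finset.sum_add_distrib]
      refine Finset.sum_congr rfl fun i _ => ?_
      have h7 := geom_sum₂_mul (lam i) (lam i + s) m
      have h8 : ∑ k ∈ range m, c i ^ 2 * (lam i ^ k * (lam i + s) ^ (m - 1 - k))
          = c i ^ 2 * ∑ k ∈ range m, lam i ^ k * (lam i + s) ^ (m - 1 - k) := by
        rw [Finset.mul_sum]
      rw [h8]
      have h9 : (∑ k ∈ range m, lam i ^ k * (lam i + s) ^ (m - 1 - k)) * s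
          = (lam i + s) ^ m - lam i ^ m := by
        have : (∑ k ∈ range m, lam i ^ k * (lam i + s) ^ (m - 1 - k)) * (lam i - (lam i + s))
            = lam i ^ m - (lam i + s) ^ m := h7
        linarith
      linear_combination c i ^ 2 * h9
    linarith

/-- adding a rank one matrix at `w` does not decrease the moments at `w` -/
lemma le_mom_rank_one {Y : Matrix ι ι ℝ} (hY : Y.PosSemidef) (w : ι → ℝ) (m : ℕ) :
    mom Y w m ≤ mom (Y + vecMulVec w w) w m := by
  rw [mom_rank_one]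
  have hZ : (Y + vecMulVec w w).PosSemidef := hY.add (posSemidef_vecMulVec w)
  have : 0 ≤ ∑ k ∈ range m, mom (Y + vecMulVec w w) w (m - 1 - k) * mom Y w k :=
    Finset.sum_nonneg fun k _ => mul_nonneg (mom_nonneg hZ _ _) (mom_nonneg hY _ _)
  linarith

end

end Pool.Agent.Exp
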