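import Pool.Agent.Exp.Moment

/-!
# Product weights on colourings and the moment inequality
-/

namespace Pool.Agent.Exp

open Matrix Finset

noncomputable section

variable {V κ ι : Type*} [Fintype V] [DecidableEq V] [Fintype κ] [DecidableEq κ]
  [Fintype ι] [DecidableEq ι]

/-- product weight of a colouring -/
def cwt (π : κ → ℝ) (χ : V → κ) : ℝ := ∏ v, π (χ v)

omit [DecidableEq V] [Fintype κ] [DecidableEq κ] in
lemma cwt_nonneg {π : κ → ℝ} (hπ : ∀ k, 0 ≤ π k) (χ : V → κ) : 0 ≤ cwt π χ :=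
  Finset.prod_nonneg fun _ _ => hπ _

/-- resampling the colour of `v` among the colours outside `T` -/
lemma resample (π : κ → ℝ) (T : Finset κ) (v : V) (F : (V → κ) → ℝ) :
    (∑ k ∈ Tᶜ, π k) * ∑ χ : V → κ, cwt π χ * (if χ v ∈ T then 0 else F χ)
      = ∑ χ : V → κ, cwt π χ * (if χ v ∈ T then 0
          else ∑ k ∈ Tᶜ, π k * F (Function.update χ v k)) := by
  classical
  have hsplit : ∀ G : (V → κ) → ℝ, ∑ χ : V → κ, G χ
      = ∑ k : κ, ∑ ψ : ({j // j ≠ v} → κ), G ((Equiv.funSplitAt v κ).symm (k, ψ)) := by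
    intro G
    rw [← Fintype.sum_prod_type' (f := fun k ψ => G ((Equiv.funSplitAt v κ).symm (k, ψ)))]
    exact (Fintype.sum_equiv (Equiv.funSplitAt v κ).symm _ _ (fun x => rfl)).symm
  have hval : ∀ (k : κ) (ψ : {j // j ≠ v} → κ), ((Equiv.funSplitAt v κ).symm (k, ψ)) v = k := by
    intro k ψ
    simp [Equiv.funSplitAt, Equiv.piSplitAt]
  have hw : ∀ (k : κ) (ψ : {j // j ≠ v} → κ),
      cwt π ((Equiv.funSplitAt v κ).symm (k, ψ)) = π k * ∏ j, π (ψ j) := by
    intro k ψ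
    unfold cwt
    rw [← Finset.mul_prod_erase univ _ (Finset.mem_univ v), hval]
    congr 1
    refine (Finset.prod_bij (fun (j : {j // j ≠ v}) _ => (j : V)) ?_ ?_ ?_ ?_).symm
    · intro j _
      simp [j.2]
    · intro a _ b _ h
      exact Subtype.ext h
    · intro b hb
      exact ⟨⟨b, (Finset.mem_erase.1 hb).1⟩, Finset.mem_univ _, rfl⟩
    · intro j _
      simp [Equiv.funSplitAt, Equiv.piSplitAt, j.2]
  have hupd : ∀ (k l : κ) (ψ : {j // j ≠ v} → κ),
      Function.update ((Equiv.funSplitAt v κ).symm (k, ψ)) v l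
        = (Equiv.funSplitAt v κ).symm (l, ψ) := by
    intro k l ψ
    funext j
    by_cases hj : j = v
    · subst hj
      simp [hval]
    · rw [Function.update_of_ne hj]
      simp [Equiv.funSplitAt, Equiv.piSplitAt, hj]
  rw [hsplit, hsplit]
  simp only [hw, hval, hupd]
  have hL : ∑ k : κ, ∑ ψ : ({j // j ≠ v} → κ), π k * (∏ j, π (ψ j))
      * (if k ∈ T then 0 else F ((Equiv.funSplitAt v κ).symm (k, ψ)))
      = ∑ ψ : ({j // j ≠ v} → κ), (∏ j, π (ψ j))
        * ∑ k ∈ Tᶜ, π k * F ((Equiv.funSplitAt v κ).symm (k, ψ)) := by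
    rw [Finset.sum_comm]
    refine Finset.sum_congr rfl fun ψ _ => ?_
    rw [Finset.mul_sum, ← Finset.sum_subset (Finset.subset_univ Tᶜ)]
    · refine Finset.sum_congr rfl fun k hk => ?_
      rw [if_neg (Finset.mem_compl.1 hk)]
      ring
    · intro k _ hk
      rw [if_pos (by simpa using hk)]
      ring
  have hR : ∑ k : κ, ∑ ψ : ({j // j ≠ v} → κ), π k * (∏ j, π (ψ j))
      * (if k ∈ T then 0 else ∑ l ∈ Tᶜ, π l * F ((Equiv.funSplitAt v κ).symm (l, ψ)))
      = ∑ k ∈ Tᶜ, π k * ∑ ψ : ({j // j ≠ v} → κ), (∏ j, π (ψ j))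
        * ∑ l ∈ Tᶜ, π l * F ((Equiv.funSplitAt v κ).symm (l, ψ)) := by
    rw [← Finset.sum_subset (Finset.subset_univ Tᶜ)]
    · refine Finset.sum_congr rfl fun k hk => ?_
      rw [Finset.mul_sum]
      refine Finset.sum_congr rfl fun ψ _ => ?_
      rw [if_neg (Finset.mem_compl.1 hk)]
      ring
    · intro k _ hk
      refine Finset.sum_eq_zero fun ψ _ => ?_
      rw [if_pos (by simpa using hk)]
      ring
  rw [hL, hR, ← Finset.sum_mul]

/-- the sum of the rank one matrices of the vertices with colour in `T` -/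
def XT (T : Finset κ) (w : V → ι → ℝ) (χ : V → κ) : Matrix ι ι ℝ :=
  ∑ v with χ v ∈ T, vecMulVec (w v) (w v)

omit [Fintype V] [DecidableEq V] [DecidableEq ι] in
lemma posSemidef_sum_vecMulVec (s : Finset V) (w : V → ι → ℝ) :
    (∑ v ∈ s, vecMulVec (w v) (w v)).PosSemidef := by
  classical
  induction s using Finset.induction_on with
  | empty => simpa using Matrix.PosSemidef.zero
  | insert a s ha ih =>
    rw [Finset.sum_insert ha]
    exact (posSemidef_vecMulVec (w a)).add ih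

section order
open scoped MatrixOrder ComplexOrder

omit [DecidableEq ι] in
lemma exists_transpose_mul_self {P : Matrix ι ι ℝ} (hP : P.PosSemidef) :
    ∃ B : Matrix ι ι ℝ, P = Bᵀ * B := by
  classical
  obtain ⟨B, hB⟩ := CStarAlgebra.nonneg_iff_eq_star_mul_self.mp hP.nonneg
  refine ⟨B, ?_⟩
  rw [hB, Matrix.star_eq_conjTranspose, Matrix.conjTranspose_eq_transpose_of_trivial]

end order

omit [Fintype V] [DecidableEq V] [DecidableEq ι] in
/-- trace of `P` times a sum of rank one matrices -/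
lemma trace_mul_sum_vecMulVec (P : Matrix ι ι ℝ) (s : Finset V) (w : V → ι → ℝ) :
    (P * ∑ v ∈ s, vecMulVec (w v) (w v)).trace = ∑ v ∈ s, w v ⬝ᵥ (P *ᵥ w v) := by
  rw [Matrix.mul_sum, Matrix.trace_sum]
  refine Finset.sum_congr rfl fun v _ => ?_
  rw [Matrix.mul_vecMulVec, Matrix.trace_vecMulVec, dotProduct_comm]

omit [Fintype V] [DecidableEq V] [DecidableEq ι] in
/-- `∑ w v ⬝ P w v ≤ L tr P` for positive semidefinite `P` -/
lemma sum_dot_le_trace {P : Matrix ι ι ℝ} (hP : P.PosSemidef) (s : Finset V) (w : V → ι → ℝ)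
    {L : ℝ} (hL : ∀ x : ι → ℝ, ∑ v ∈ s, (w v ⬝ᵥ x) ^ 2 ≤ L * (x ⬝ᵥ x)) :
    ∑ v ∈ s, w v ⬝ᵥ (P *ᵥ w v) ≤ L * P.trace := by
  obtain ⟨B, hB'⟩ := exists_transpose_mul_self hP
  have h1 : ∀ v, w v ⬝ᵥ (P *ᵥ w v) = ∑ r, (w v ⬝ᵥ B r) ^ 2 := by
    intro v
    rw [hB', ← Matrix.mulVec_mulVec, Matrix.dotProduct_mulVec, Matrix.vecMul_transpose]
    simp only [dotProduct, Matrix.mulVec]
    refine Finset.sum_congr rfl fun r _ => ?_
    rw [sq]
    congr 1 <;> exact Finset.sum_congr rfl fun i _ => mul_comm _ _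
  have h2 : P.trace = ∑ r, B r ⬝ᵥ B r := by
    rw [hB']
    simp only [Matrix.trace, Matrix.diag, Matrix.mul_apply, Matrix.transpose_apply, dotProduct]
    exact Finset.sum_comm
  simp only [h1]
  rw [Finset.sum_comm, h2, Finset.mul_sum]
  exact Finset.sum_le_sum fun r _ => hL (B r)

/-- colour class -/
def clsS (T : Finset κ) (χ : V → κ) : Finset V := univ.filter fun v => χ v ∈ T

section main

variable (π : κ → ℝ) (T₁ T₂ : Finset κ) (w : Finset V → V → ι → ℝ) (good : Finset V → Prop)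
  [DecidablePred good]

/-- the random matrix -/
def Xm (χ : V → κ) : Matrix ι ι ℝ :=
  ∑ v ∈ clsS T₂ χ, vecMulVec (w (clsS T₁ χ) v) (w (clsS T₁ χ) v)

/-- the moments -/
def Mq (q : ℕ) : ℝ :=
  ∑ χ : V → κ, cwt π χ * (if good (clsS T₁ χ) then ((Xm T₁ T₂ w χ) ^ q).trace else 0)

omit [DecidableEq V] [Fintype κ] [DecidableEq ι] in
lemma posSemidef_Xm (χ : V → κ) : (Xm T₁ T₂ w χ).PosSemidef :=
  posSemidef_sum_vecMulVec _ _

lemma key_vertex (hπ : ∀ k, 0 ≤ π k) (hT : Disjoint T₁ T₂) {s : ℝ}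
    (hs : ∀ A, good A → ∀ v ∉ A, w A v ⬝ᵥ w A v ≤ s) (hs0 : 0 ≤ s) (q : ℕ) (v : V) :
    (∑ k ∈ T₁ᶜ, π k) * ∑ χ : V → κ, cwt π χ *
        (if v ∈ clsS T₂ χ ∧ good (clsS T₁ χ) then
          w (clsS T₁ χ) v ⬝ᵥ ((Xm T₁ T₂ w χ) ^ q *ᵥ w (clsS T₁ χ) v) else 0)
      ≤ (∑ k ∈ T₂, π k) * ∑ χ : V → κ, cwt π χ *
        (if v ∉ clsS T₁ χ ∧ good (clsS T₁ χ) then
          w (clsS T₁ χ) v ⬝ᵥ ((Xm T₁ T₂ w χ + s • (1 : Matrix ι ι ℝ)) ^ q *ᵥ w (clsS T₁ χ) v)
          else 0) := by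
  classical
  have hsub : T₂ ⊆ T₁ᶜ := fun k hk => by
    rw [Finset.mem_compl]
    exact fun h => (Finset.disjoint_left.1 hT) h hk
  set F : (V → κ) → ℝ := fun χ => if v ∈ clsS T₂ χ ∧ good (clsS T₁ χ) then
          w (clsS T₁ χ) v ⬝ᵥ ((Xm T₁ T₂ w χ) ^ q *ᵥ w (clsS T₁ χ) v) else 0 with hF
  have e1 : ∀ χ : V → κ, F χ = if χ v ∈ T₁ then 0 else F χ := by
    intro χ
    split_ifs with h
    · rw [hF]
      have : v ∉ clsS T₂ χ := by
        simp only [clsS, Finset.mem_filter, Finset.mem_univ, true_and]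
        exact fun h' => (Finset.disjoint_left.1 hT) h h'
      simp [this]
    · rfl
  have e2 : ∑ χ : V → κ, cwt π χ * F χ = ∑ χ : V → κ, cwt π χ * (if χ v ∈ T₁ then 0 else F χ) :=
    Finset.sum_congr rfl fun χ _ => by rw [← e1]
  change (∑ k ∈ T₁ᶜ, π k) * ∑ χ : V → κ, cwt π χ * F χ ≤ _
  rw [e2, resample, Finset.mul_sum]
  refine Finset.sum_le_sum fun χ _ => ?_
  rw [← mul_assoc, mul_comm (∑ k ∈ T₂, π k), mul_assoc]
  refine mul_le_mul_of_nonneg_left ?_ (cwt_nonneg hπ χ)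
  by_cases hv : χ v ∈ T₁
  · rw [if_pos hv, if_neg (by simp [clsS, hv])]
    simp
  rw [if_neg hv]
  -- the colour class of `T₁` does not change
  have hA : ∀ k ∈ T₁ᶜ, clsS T₁ (Function.update χ v k) = clsS T₁ χ := by
    intro k hk
    ext u
    simp only [clsS, Finset.mem_filter, Finset.mem_univ, true_and]
    by_cases huv : u = v
    · subst huv
      simp [hv, Finset.mem_compl.1 hk]
    · rw [Function.update_of_ne huv]
  set A := clsS T₁ χ with hAdef
  have hvA : v ∉ A := by simp [hAdef, clsS, hv]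
  by_cases hg : good A
  swap
  · rw [if_neg (by tauto)]
    rw [mul_zero]
    refine le_of_eq (Finset.sum_eq_zero fun k hk => ?_)
    rw [hF]
    simp only [hA k hk]
    rw [if_neg (by tauto), mul_zero]
  rw [if_pos ⟨hvA, hg⟩]
  -- the rest
  set R : Finset V := (univ.filter fun u => χ u ∈ T₂).erase v with hR
  set Y : Matrix ι ι ℝ := ∑ u ∈ R, vecMulVec (w A u) (w A u) with hY
  have hYpsd : Y.PosSemidef := posSemidef_sum_vecMulVec _ _
  have hXk : ∀ k ∈ T₂, Xm T₁ T₂ w (Function.update χ v k) = Y + vecMulVec (w A v) (w A v) := by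
    intro k hk
    unfold Xm
    rw [hA k (hsub hk)]
    have : clsS T₂ (Function.update χ v k) = insert v R := by
      ext u
      simp only [clsS, hR, Finset.mem_filter, Finset.mem_univ, true_and, Finset.mem_insert,
        Finset.mem_erase]
      by_cases huv : u = v
      · subst huv
        simp [hk]
      · rw [Function.update_of_ne huv]
        simp [huv]
    rw [this, Finset.sum_insert (by simp [hR])]
    rw [add_comm]
  have hXχ : Xm T₁ T₂ w χ = Y ∨ Xm T₁ T₂ w χ = Y + vecMulVec (w A v) (w A v) := by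
    unfold Xm
    by_cases h : χ v ∈ T₂
    · right
      have : clsS T₂ χ = insert v R := by
        rw [hR, Finset.insert_erase (by simp [h])]
        rfl
      rw [this, Finset.sum_insert (by simp [hR])]
      rw [add_comm]
    · left
      have : clsS T₂ χ = R := by
        rw [hR, Finset.erase_eq_of_notMem (by simp [h])]
        rfl
      rw [this]
  have hbound : mom (Y + s • (1 : Matrix ι ι ℝ)) (w A v) q
      ≤ mom (Xm T₁ T₂ w χ + s • (1 : Matrix ι ι ℝ)) (w A v) q := by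
    rcases hXχ with h | h
    · rw [h]
    · rw [h, add_right_comm]
      exact le_mom_rank_one (posSemidef_add_smul_one hYpsd hs0) _ _
  have hterm : ∀ k ∈ T₁ᶜ, π k * F (Function.update χ v k)
      ≤ if k ∈ T₂ then π k * mom (Xm T₁ T₂ w χ + s • (1 : Matrix ι ι ℝ)) (w A v) q else 0 := by
    intro k hk
    by_cases hk2 : k ∈ T₂
    · rw [if_pos hk2]
      refine mul_le_mul_of_nonneg_left ?_ (hπ k)
      have hFk : F (Function.update χ v k) = mom (Y + vecMulVec (w A v) (w A v)) (w A v) q := by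
        rw [hF]
        simp only [hA k hk]
        rw [if_pos ⟨by simp [clsS, hk2], hg⟩, hXk k hk2]
        rfl
      rw [hFk]
      exact (mom_rank_one_le hYpsd _ (hs A hg v hvA) q).trans hbound
    · rw [if_neg hk2]
      have hFk : F (Function.update χ v k) = 0 := by
        rw [hF]
        simp only
        rw [if_neg]
        rintro ⟨h1, _⟩
        exact hk2 (by simpa [clsS] using h1)
      rw [hFk, mul_zero]
  refine (Finset.sum_le_sum hterm).trans ?_
  rw [Finset.sum_ite, Finset.sum_const_zero, add_zero, Finset.sum_mul]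
  refine le_of_eq (Finset.sum_congr ?_ fun k _ => rfl)
  ext k
  simp only [Finset.mem_filter]
  exact ⟨fun h => h.2, fun h => ⟨hsub h, h⟩⟩

omit [DecidableEq V] [Fintype κ] in
/-- binomial expansion of the shifted moment -/
lemma trace_shift (X : Matrix ι ι ℝ) (s : ℝ) (q : ℕ) :
    ((X + s • (1 : Matrix ι ι ℝ)) ^ q).trace
      = ∑ j ∈ range (q + 1), (q.choose j : ℝ) * s ^ (q - j) * (X ^ j).trace := by
  have hc : Commute X (s • (1 : Matrix ι ι ℝ)) := by
    rw [Commute, SemiconjBy]; simp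
  rw [hc.add_pow, Matrix.trace_sum]
  refine Finset.sum_congr rfl fun j _ => ?_
  rw [smul_pow, one_pow, Matrix.mul_smul, mul_one]
  rw [← Nat.cast_comm, ← nsmul_eq_mul, Matrix.trace_smul, Matrix.trace_smul]
  simp only [nsmul_eq_mul, smul_eq_mul]
  ring

lemma Mq_succ (hπ : ∀ k, 0 ≤ π k) (hT : Disjoint T₁ T₂) {s L : ℝ} (hs0 : 0 ≤ s)
    (hs : ∀ A, good A → ∀ v ∉ A, w A v ⬝ᵥ w A v ≤ s)
    (hL : ∀ A, good A → ∀ x : ι → ℝ, ∑ v ∈ Aᶜ, (w A v ⬝ᵥ x) ^ 2 ≤ L * (x ⬝ᵥ x)) (q : ℕ) :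
    (∑ k ∈ T₁ᶜ, π k) * Mq π T₁ T₂ w good (q + 1)
      ≤ (∑ k ∈ T₂, π k) * L * ∑ j ∈ range (q + 1),
        (q.choose j : ℝ) * s ^ (q - j) * Mq π T₁ T₂ w good j := by
  classical
  have hp2 : 0 ≤ ∑ k ∈ T₂, π k := Finset.sum_nonneg fun k _ => hπ k
  -- expand the trace
  have h1 : Mq π T₁ T₂ w good (q + 1) = ∑ v : V, ∑ χ : V → κ, cwt π χ *
        (if v ∈ clsS T₂ χ ∧ good (clsS T₁ χ) then
          w (clsS T₁ χ) v ⬝ᵥ ((Xm T₁ T₂ w χ) ^ q *ᵥ w (clsS T₁ χ) v) else 0) := by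
    rw [Finset.sum_comm]
    unfold Mq
    refine Finset.sum_congr rfl fun χ _ => ?_
    rw [← Finset.mul_sum]
    congr 1
    split_ifs with hg
    · rw [pow_succ]
      have h0 : ((Xm T₁ T₂ w χ) ^ q * Xm T₁ T₂ w χ).trace
          = ∑ v ∈ clsS T₂ χ, w (clsS T₁ χ) v ⬝ᵥ ((Xm T₁ T₂ w χ) ^ q *ᵥ w (clsS T₁ χ) v) :=
        trace_mul_sum_vecMulVec ((Xm T₁ T₂ w χ) ^ q) (clsS T₂ χ) (w (clsS T₁ χ))
      rw [h0]
      simp only [hg, and_true]
      rw [← Finset.sum_filter]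
      refine Finset.sum_congr ?_ fun v _ => rfl
      ext v; simp
    · simp [hg]
  rw [h1, Finset.mul_sum]
  have h2 := Finset.sum_le_sum fun v (_ : v ∈ (univ : Finset V)) =>
    key_vertex π T₁ T₂ w good hπ hT hs hs0 q v
  refine h2.trans ?_
  rw [← Finset.mul_sum, mul_assoc]
  refine mul_le_mul_of_nonneg_left ?_ hp2
  rw [Finset.sum_comm]
  -- per colouring
  have h3 : ∀ χ : V → κ, ∑ v : V, cwt π χ *
        (if v ∉ clsS T₁ χ ∧ good (clsS T₁ χ) then
          w (clsS T₁ χ) v ⬝ᵥ ((Xm T₁ T₂ w χ + s • (1 : Matrix ι ι ℝ)) ^ q *ᵥ w (clsS T₁ χ) v)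
          else 0)
      ≤ L * (cwt π χ * (if good (clsS T₁ χ) then
          ((Xm T₁ T₂ w χ + s • (1 : Matrix ι ι ℝ)) ^ q).trace else 0)) := by
    intro χ
    rw [← Finset.mul_sum, ← mul_assoc, mul_comm L, mul_assoc]
    refine mul_le_mul_of_nonneg_left ?_ (cwt_nonneg hπ χ)
    by_cases hg : good (clsS T₁ χ)
    · simp only [hg, and_true, if_true]
      rw [← Finset.sum_filter]
      have hP : ((Xm T₁ T₂ w χ + s • (1 : Matrix ι ι ℝ)) ^ q).PosSemidef :=
        (posSemidef_add_smul_one (posSemidef_Xm T₁ T₂ w χ) hs0).pow q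
      have h4 := sum_dot_le_trace hP (clsS T₁ χ)ᶜ (w (clsS T₁ χ)) (hL _ hg)
      refine le_trans (le_of_eq (Finset.sum_congr ?_ fun v _ => rfl)) h4
      ext v; simp
    · simp [hg]
  refine (Finset.sum_le_sum fun χ _ => h3 χ).trans ?_
  rw [← Finset.mul_sum]
  refine le_of_eq ?_
  congr 1
  have h5 : ∀ χ : V → κ, cwt π χ * (if good (clsS T₁ χ) then
          ((Xm T₁ T₂ w χ + s • (1 : Matrix ι ι ℝ)) ^ q).trace else 0)
      = ∑ j ∈ range (q + 1), (q.choose j : ℝ) * s ^ (q - j) *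
        (cwt π χ * (if good (clsS T₁ χ) then ((Xm T₁ T₂ w χ) ^ j).trace else 0)) := by
    intro χ
    split_ifs with hg
    · rw [trace_shift, Finset.mul_sum]
      exact Finset.sum_congr rfl fun j _ => by ring
    · simp
  rw [Finset.sum_congr rfl fun χ _ => h5 χ, Finset.sum_comm]
  refine Finset.sum_congr rfl fun j _ => ?_
  rw [Mq, Finset.mul_sum]

lemma Mq_nonneg (hπ : ∀ k, 0 ≤ π k) (q : ℕ) : 0 ≤ Mq π T₁ T₂ w good q := by
  refine Finset.sum_nonneg fun χ _ => mul_nonneg (cwt_nonneg hπ χ) ?_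
  split_ifs
  · exact ((posSemidef_Xm T₁ T₂ w χ).pow q).trace_nonneg
  · exact le_rfl

/-- the weight of the colourings whose first class is good -/
def Gw : ℝ := ∑ χ : V → κ, cwt π χ * (if good (clsS T₁ χ) then 1 else 0)

/-- **moment inequality** -/
theorem Mq_le (hπ : ∀ k, 0 ≤ π k) (hT : Disjoint T₁ T₂) {s L : ℝ} (hs0 : 0 ≤ s) (hL0 : 0 ≤ L)
    (hz : 0 < ∑ k ∈ T₁ᶜ, π k)
    (hs : ∀ A, good A → ∀ v ∉ A, w A v ⬝ᵥ w A v ≤ s)
    (hL : ∀ A, good A → ∀ x : ι → ℝ, ∑ v ∈ Aᶜ, (w A v ⬝ᵥ x) ^ 2 ≤ L * (x ⬝ᵥ x)) (q : ℕ) :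
    Mq π T₁ T₂ w good q ≤ Gw π T₁ good * Fintype.card ι
      * ((∑ k ∈ T₂, π k) / (∑ k ∈ T₁ᶜ, π k) * L + q * s) ^ q := by
  classical
  set a : ℝ := (∑ k ∈ T₂, π k) / (∑ k ∈ T₁ᶜ, π k) * L with ha
  have hp2 : 0 ≤ ∑ k ∈ T₂, π k := Finset.sum_nonneg fun k _ => hπ k
  have ha0 : 0 ≤ a := by positivity
  have hG0 : 0 ≤ Gw π T₁ good := by
    refine Finset.sum_nonneg fun χ _ => mul_nonneg (cwt_nonneg hπ χ) ?_
    split_ifs <;> norm_num
  induction q using Nat.strong_induction_on with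
  | _ q ih =>
    cases q with
    | zero =>
      simp only [pow_zero, mul_one, Mq, Gw, Finset.sum_mul]
      refine le_of_eq (Finset.sum_congr rfl fun χ _ => ?_)
      split_ifs
      · simp [Matrix.trace_one]
      · simp
    | succ q =>
      have h1 := Mq_succ π T₁ T₂ w good hπ hT hs0 hs hL q
      have h2 : Mq π T₁ T₂ w good (q + 1) ≤ a * ∑ j ∈ range (q + 1),
          (q.choose j : ℝ) * s ^ (q - j) * Mq π T₁ T₂ w good j := by
        rw [ha, div_mul_eq_mul_div, div_mul_eq_mul_div, le_div_iff₀ hz]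
        linarith
      refine h2.trans ?_
      set B : ℝ := Gw π T₁ good * Fintype.card ι with hB
      have hB0 : 0 ≤ B := by positivity
      have h3 : ∑ j ∈ range (q + 1), (q.choose j : ℝ) * s ^ (q - j) * Mq π T₁ T₂ w good j
          ≤ B * ((a + q * s) + s) ^ q := by
        rw [add_pow, Finset.mul_sum]
        refine Finset.sum_le_sum fun j hj => ?_
        have hjq : j ≤ q := Nat.lt_succ_iff.1 (Finset.mem_range.1 hj)
        have h4 := ih j (Nat.lt_succ_of_le hjq)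
        have h5 : (a + (j : ℝ) * s) ^ j ≤ (a + q * s) ^ j := by
          refine pow_le_pow_left₀ (by positivity) ?_ j
          have : (j : ℝ) ≤ q := by exact_mod_cast hjq
          nlinarith
        have h6 : Mq π T₁ T₂ w good j ≤ B * (a + q * s) ^ j :=
          h4.trans (mul_le_mul_of_nonneg_left h5 hB0)
        calc (q.choose j : ℝ) * s ^ (q - j) * Mq π T₁ T₂ w good j
            ≤ (q.choose j : ℝ) * s ^ (q - j) * (B * (a + q * s) ^ j) :=
              mul_le_mul_of_nonneg_left h6 (by positivity)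
          _ = B * ((a + q * s) ^ j * s ^ (q - j) * (q.choose j)) := by ring
      have h7 : a + ((q + 1 : ℕ) : ℝ) * s = (a + q * s) + s := by push_cast; ring
      rw [h7, pow_succ]
      have h8 : 0 ≤ B * ((a + q * s) + s) ^ q := by positivity
      calc a * ∑ j ∈ range (q + 1), (q.choose j : ℝ) * s ^ (q - j) * Mq π T₁ T₂ w good j
          ≤ a * (B * ((a + q * s) + s) ^ q) := mul_le_mul_of_nonneg_left h3 ha0
        _ ≤ ((a + q * s) + s) * (B * ((a + q * s) + s) ^ q) := by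
            refine mul_le_mul_of_nonneg_right ?_ h8
            have : 0 ≤ (q : ℝ) * s := by positivity
            linarith
        _ = _ := by ring

end main


end

end Pool.Agent.Exp
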