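import Pool.Agent.Exp.Moment2

/-!
# Norm bounds for random submatrices (bad events of small weight)
-/

namespace Pool.Agent.Exp

open Matrix Finset

noncomputable section

variable {V κ ι : Type*} [Fintype V] [DecidableEq V] [Fintype κ] [DecidableEq κ]
  [Fintype ι] [DecidableEq ι]

omit [DecidableEq ι] in
lemma dot_le_trace {P : Matrix ι ι ℝ} (hP : P.PosSemidef) (x : ι → ℝ) :
    x ⬝ᵥ (P *ᵥ x) ≤ P.trace * (x ⬝ᵥ x) := by
  classical
  obtain ⟨B, hB'⟩ := exists_transpose_mul_self hP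
  have h1 : x ⬝ᵥ (P *ᵥ x) = ∑ r, (B r ⬝ᵥ x) ^ 2 := by
    rw [hB', ← Matrix.mulVec_mulVec, Matrix.dotProduct_mulVec, Matrix.vecMul_transpose]
    simp only [dotProduct, Matrix.mulVec]
    exact Finset.sum_congr rfl fun r _ => by rw [sq]
  have h2 : P.trace = ∑ r, B r ⬝ᵥ B r := by
    rw [hB']
    simp only [Matrix.trace, Matrix.diag, Matrix.mul_apply, Matrix.transpose_apply, dotProduct]
    exact Finset.sum_comm
  rw [h1, h2, Finset.sum_mul]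
  refine Finset.sum_le_sum fun r _ => ?_
  have h := Finset.sum_mul_sq_le_sq_mul_sq univ (B r) x
  simp only [dotProduct]
  calc (∑ i, B r i * x i) ^ 2 ≤ (∑ i, B r i ^ 2) * ∑ i, x i ^ 2 := h
    _ = _ := by simp only [sq]

lemma mom_one_pow_le {X : Matrix ι ι ℝ} (hX : X.PosSemidef) (x : ι → ℝ) (q : ℕ) :
    mom X x 1 ^ (q + 1) ≤ (x ⬝ᵥ x) ^ q * mom X x (q + 1) := by
  obtain ⟨lam, c, hl, hsp⟩ := exists_spec X hX x
  have hm : ∀ k, mom X x k = ∑ i, c i ^ 2 * lam i ^ k := by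
    intro k
    have h := hsp k 0 0
    simp only [pow_zero, mul_one] at h
    exact h
  have hc0 : x ⬝ᵥ x = ∑ i, c i ^ 2 := by
    have h := hm 0
    simpa [mom_zero] using h
  have hx0 : 0 ≤ x ⬝ᵥ x := Finset.sum_nonneg fun i _ => mul_self_nonneg (x i)
  induction q with
  | zero => simp
  | succ q ih =>
    have h1 : mom X x 1 * mom X x (q + 1) ≤ (x ⬝ᵥ x) * mom X x (q + 1 + 1) := by
      rw [hm, hm, hm, hc0]
      have h := cheb c (fun i => lam i ^ 1) (fun i => lam i ^ (q + 1)) (by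
        intro i j
        rcases le_total (lam i) (lam j) with hij | hij
        · have a1 : lam i ^ 1 ≤ lam j ^ 1 := pow_le_pow_left₀ (hl i) hij 1
          have a2 : lam i ^ (q + 1) ≤ lam j ^ (q + 1) := pow_le_pow_left₀ (hl i) hij _
          exact mul_nonneg_of_nonpos_of_nonpos (by linarith) (by linarith)
        · have a1 : lam j ^ 1 ≤ lam i ^ 1 := pow_le_pow_left₀ (hl j) hij 1
          have a2 : lam j ^ (q + 1) ≤ lam i ^ (q + 1) := pow_le_pow_left₀ (hl j) hij _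
          exact mul_nonneg (by linarith) (by linarith))
      refine h.trans (le_of_eq ?_)
      congr 1
      refine Finset.sum_congr rfl fun i _ => ?_
      ring
    calc mom X x 1 ^ (q + 1 + 1) = mom X x 1 ^ (q + 1) * mom X x 1 := pow_succ _ _
      _ ≤ ((x ⬝ᵥ x) ^ q * mom X x (q + 1)) * mom X x 1 :=
          mul_le_mul_of_nonneg_right ih (mom_nonneg hX x 1)
      _ = (x ⬝ᵥ x) ^ q * (mom X x 1 * mom X x (q + 1)) := by ring
      _ ≤ (x ⬝ᵥ x) ^ q * ((x ⬝ᵥ x) * mom X x (q + 1 + 1)) :=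
          mul_le_mul_of_nonneg_left h1 (pow_nonneg hx0 q)
      _ = _ := by ring

/-- a bound on `tr X ^ q` bounds the quadratic form -/
lemma quad_le_of_trace_pow_le {X : Matrix ι ι ℝ} (hX : X.PosSemidef) {q : ℕ} (hq : 0 < q)
    {T : ℝ} (hT : 0 ≤ T) (h : (X ^ q).trace ≤ T ^ q) (x : ι → ℝ) :
    x ⬝ᵥ (X *ᵥ x) ≤ T * (x ⬝ᵥ x) := by
  obtain ⟨r, rfl⟩ : ∃ r, q = r + 1 := ⟨q - 1, by omega⟩
  have hx0 : 0 ≤ x ⬝ᵥ x := Finset.sum_nonneg fun i _ => mul_self_nonneg (x i)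
  have h1 := mom_one_pow_le hX x r
  have h2 : mom X x (r + 1) ≤ T ^ (r + 1) * (x ⬝ᵥ x) :=
    (dot_le_trace (hX.pow (r + 1)) x).trans (mul_le_mul_of_nonneg_right h hx0)
  have h3 : mom X x 1 ^ (r + 1) ≤ (T * (x ⬝ᵥ x)) ^ (r + 1) := by
    calc mom X x 1 ^ (r + 1) ≤ (x ⬝ᵥ x) ^ r * mom X x (r + 1) := h1
      _ ≤ (x ⬝ᵥ x) ^ r * (T ^ (r + 1) * (x ⬝ᵥ x)) :=
          mul_le_mul_of_nonneg_left h2 (pow_nonneg hx0 r)
      _ = _ := by ring
  have h4 := le_of_pow_le_pow_left₀ (by omega) (mul_nonneg hT hx0) h3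
  simpa [mom] using h4

omit [Fintype V] [DecidableEq V] [DecidableEq ι] in
lemma quad_sum_vecMulVec (s : Finset V) (w : V → ι → ℝ) (x : ι → ℝ) :
    x ⬝ᵥ ((∑ v ∈ s, vecMulVec (w v) (w v)) *ᵥ x) = ∑ v ∈ s, (w v ⬝ᵥ x) ^ 2 := by
  rw [Matrix.sum_mulVec, dotProduct_sum]
  refine Finset.sum_congr rfl fun v _ => ?_
  rw [Matrix.vecMulVec_mulVec, dotProduct_smul, dotProduct_comm x (w v), op_smul_eq_mul, sq]

section main

variable (π : κ → ℝ) (T₁ T₂ : Finset κ) (w : Finset V → V → ι → ℝ) (good : Finset V → Prop)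
  [DecidablePred good]

open Classical in
/-- **weight of the bad event**: the first class is good but the quadratic form of the second
class is large -/
theorem bad_weight_le (hπ : ∀ k, 0 ≤ π k) (hT : Disjoint T₁ T₂) {s L T : ℝ} (hs0 : 0 ≤ s)
    (hL0 : 0 ≤ L) (hz : 0 < ∑ k ∈ T₁ᶜ, π k)
    (hs : ∀ A, good A → ∀ v ∉ A, w A v ⬝ᵥ w A v ≤ s)
    (hL : ∀ A, good A → ∀ x : ι → ℝ, ∑ v ∈ Aᶜ, (w A v ⬝ᵥ x) ^ 2 ≤ L * (x ⬝ᵥ x))
    {q : ℕ} (hq : 0 < q) (hT0 : 0 < T) :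
    ∑ χ : V → κ, cwt π χ * (if good (clsS T₁ χ) ∧ ¬ ∀ x : ι → ℝ,
        ∑ v ∈ clsS T₂ χ, (w (clsS T₁ χ) v ⬝ᵥ x) ^ 2 ≤ T * (x ⬝ᵥ x) then 1 else 0)
      ≤ Gw π T₁ good * Fintype.card ι
        * (((∑ k ∈ T₂, π k) / (∑ k ∈ T₁ᶜ, π k) * L + q * s) / T) ^ q := by
  have h := Mq_le π T₁ T₂ w good hπ hT hs0 hL0 hz hs hL q
  have hTq : 0 < T ^ q := pow_pos hT0 q
  rw [div_pow, ← mul_div_assoc, le_div_iff₀ hTq]
  refine le_trans ?_ h
  rw [Mq, Finset.sum_mul]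
  refine Finset.sum_le_sum fun χ _ => ?_
  rw [mul_assoc]
  refine mul_le_mul_of_nonneg_left ?_ (cwt_nonneg hπ χ)
  by_cases hg : good (clsS T₁ χ)
  swap
  · simp [hg]
  rw [if_pos hg]
  by_cases hb : ∀ x : ι → ℝ, ∑ v ∈ clsS T₂ χ, (w (clsS T₁ χ) v ⬝ᵥ x) ^ 2 ≤ T * (x ⬝ᵥ x)
  · rw [if_neg (by tauto), zero_mul]
    exact ((posSemidef_Xm T₁ T₂ w χ).pow q).trace_nonneg
  · rw [if_pos ⟨hg, hb⟩, one_mul]
    by_contra hcon
    push Not at hcon
    apply hb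
    intro x
    have h1 := quad_le_of_trace_pow_le (posSemidef_Xm T₁ T₂ w χ) hq hT0.le hcon.le x
    rw [Xm, quad_sum_vecMulVec] at h1
    exact h1

end main

end

end Pool.Agent.Exp
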