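import Mathlib

/-!
(n, d, lambda)-graphs: the spectral hypothesis gives the bilinear bound and expander mixing (tool for MP_134267_co).
-/

set_option autoImplicit false
set_option linter.unusedSectionVars false

namespace Pool.Agent.Exp

open Finset Matrix

variable {V : Type*} [Fintype V] [DecidableEq V]

/-- `(n, d, lam)`-graph: `d`-regular, every eigenvalue of the adjacency matrix other than `d` (counted once) has
absolute value at most `lam` -/
def IsNDL (G : SimpleGraph V) [DecidableRel G.Adj] (d : ℕ) (lam : ℝ) : Prop :=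
  G.IsRegularOfDegree d ∧ ∀ μ ∈ (G.adjMatrix ℝ).charpoly.roots.erase (d : ℝ), |μ| ≤ lam

section
variable {G : SimpleGraph V} [DecidableRel G.Adj] {d : ℕ} {lam : ℝ}

theorem isHermitian_adj (G : SimpleGraph V) [DecidableRel G.Adj] : (G.adjMatrix ℝ).IsHermitian := by
  rw [Matrix.IsHermitian, Matrix.conjTranspose_eq_transpose_of_trivial]
  exact G.isSymm_adjMatrix

theorem adj_symm_dot (G : SimpleGraph V) [DecidableRel G.Adj] (x y : V → ℝ) :
    x ⬝ᵥ ((G.adjMatrix ℝ) *ᵥ y) = ((G.adjMatrix ℝ) *ᵥ x) ⬝ᵥ y := by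
  rw [Matrix.dotProduct_mulVec, ← Matrix.mulVec_transpose, G.isSymm_adjMatrix]

theorem adj_one (hreg : G.IsRegularOfDegree d) :
    (G.adjMatrix ℝ) *ᵥ (fun _ => (1 : ℝ)) = fun _ => (d : ℝ) := by
  funext v
  have h1 := SimpleGraph.adjMatrix_mulVec_const_apply (G := G) (a := (1 : ℝ)) (v := v)
  rw [hreg v, mul_one] at h1
  exact h1

/-- coefficients in an orthonormal eigenbasis -/
theorem exists_eigen (G : SimpleGraph V) [DecidableRel G.Adj] :
    ∃ (b : V → V → ℝ) (μ : V → ℝ), (G.adjMatrix ℝ).charpoly.roots = Multiset.map μ Finset.univ.val ∧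
      (∀ i, (G.adjMatrix ℝ) *ᵥ b i = fun v => μ i * b i v) ∧
      ∀ x y : V → ℝ, x ⬝ᵥ y = ∑ i, (b i ⬝ᵥ x) * (b i ⬝ᵥ y) := by
  have hA := isHermitian_adj G
  refine ⟨fun i => ⇑(hA.eigenvectorBasis i), hA.eigenvalues, ?_, ?_, ?_⟩
  · rw [hA.roots_charpoly_eq_eigenvalues]
    rfl
  · intro i
    rw [hA.mulVec_eigenvectorBasis i]
    rfl
  · intro x y
    have h := hA.eigenvectorBasis.sum_inner_mul_inner (WithLp.toLp 2 x) (WithLp.toLp 2 y)
    simp only [EuclideanSpace.inner_eq_star_dotProduct, star_trivial] at h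
    rw [dotProduct_comm x y, ← h]
    refine sum_congr rfl fun i _ => ?_
    rw [dotProduct_comm y]

/-- on vectors with sum zero the adjacency matrix has norm at most `lam` -/
theorem IsNDL.norm_le (h : IsNDL G d lam) {x : V → ℝ} (hx : ∑ v, x v = 0) :
    ((G.adjMatrix ℝ) *ᵥ x) ⬝ᵥ ((G.adjMatrix ℝ) *ᵥ x) ≤ lam ^ 2 * (x ⬝ᵥ x) := by
  obtain ⟨b, μ, hroots, hb, hpars⟩ := exists_eigen G
  have hμ : ∀ i, b i ⬝ᵥ ((G.adjMatrix ℝ) *ᵥ x) = μ i * (b i ⬝ᵥ x) := by
    intro i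
    rw [adj_symm_dot, hb i]
    simp only [dotProduct, mul_assoc, mul_sum]
  rw [hpars, hpars x x, mul_sum]
  refine sum_le_sum fun i _ => ?_
  rw [hμ i]
  by_cases hi : |μ i| ≤ lam
  · have h1 : μ i ^ 2 ≤ lam ^ 2 := by
      rw [← sq_abs (μ i)]
      exact pow_le_pow_left₀ (abs_nonneg _) hi 2
    nlinarith [mul_self_nonneg (b i ⬝ᵥ x)]
  · suffices h0 : b i ⬝ᵥ x = 0 by
      rw [h0]
      simp
    have hmem : μ i ∈ (G.adjMatrix ℝ).charpoly.roots := by
      rw [hroots]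
      exact Multiset.mem_map_of_mem μ (Finset.mem_univ i)
    have hne : μ i ∉ (G.adjMatrix ℝ).charpoly.roots.erase (d : ℝ) := fun h' => hi (h.2 _ h')
    have hid : μ i = d := by
      by_contra h'
      exact hne ((Multiset.mem_erase_of_ne h').2 hmem)
    have huniq : ∀ j, j ≠ i → μ j ≠ d := by
      intro j hj hjd
      refine hne ?_
      rw [hid, ← Multiset.one_le_count_iff_mem, Multiset.count_erase_self, hroots]
      have h2 : 2 ≤ Multiset.count (d : ℝ) (Multiset.map μ Finset.univ.val) := by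
        rw [Multiset.count_map]
        have h3 : ({i, j} : Finset V) ⊆ Finset.univ.filter fun a => (d : ℝ) = μ a := by
          intro a ha
          rw [Finset.mem_insert, Finset.mem_singleton] at ha
          rcases ha with rfl | rfl
          · exact Finset.mem_filter.2 ⟨Finset.mem_univ _, hid.symm⟩
          · exact Finset.mem_filter.2 ⟨Finset.mem_univ _, hjd.symm⟩
        have h4 := Finset.card_le_card h3
        rw [Finset.card_pair (Ne.symm hj)] at h4
        exact h4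
      omega
    have hone : ∀ j, j ≠ i → b j ⬝ᵥ (fun _ => (1 : ℝ)) = 0 := by
      intro j hj
      have h1 : μ j * (b j ⬝ᵥ fun _ => (1 : ℝ)) = d * (b j ⬝ᵥ fun _ => (1 : ℝ)) := by
        have h2 := adj_symm_dot G (b j) (fun _ => (1 : ℝ))
        rw [hb j, adj_one h.1] at h2
        simp only [dotProduct, mul_one] at h2 ⊢
        rw [mul_sum, ← h2, mul_sum]
        exact sum_congr rfl fun v _ => by ring
      have h3 : (μ j - d) * (b j ⬝ᵥ fun _ => (1 : ℝ)) = 0 := by linarith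
      rcases mul_eq_zero.1 h3 with h4 | h4
      · exact absurd (sub_eq_zero.1 h4) (huniq j hj)
      · exact h4
    have hs1 : ∑ j, (b j ⬝ᵥ (fun _ => (1 : ℝ))) * (b j ⬝ᵥ x) = (b i ⬝ᵥ (fun _ => (1 : ℝ))) * (b i ⬝ᵥ x) :=
      Finset.sum_eq_single i (fun j _ hj => by rw [hone j hj, zero_mul]) fun h' => absurd (Finset.mem_univ i) h'
    have hs2 : ∑ j, (b j ⬝ᵥ (fun _ => (1 : ℝ))) * (b j ⬝ᵥ (fun _ => (1 : ℝ)))
        = (b i ⬝ᵥ (fun _ => (1 : ℝ))) * (b i ⬝ᵥ (fun _ => (1 : ℝ))) :=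
      Finset.sum_eq_single i (fun j _ hj => by rw [hone j hj, zero_mul]) fun h' => absurd (Finset.mem_univ i) h'
    have e1 : (fun _ => (1 : ℝ)) ⬝ᵥ x = 0 := by
      simpa [dotProduct] using hx
    have e2 : (fun _ : V => (1 : ℝ)) ⬝ᵥ (fun _ => (1 : ℝ)) = Fintype.card V := by
      simp [dotProduct]
    rw [hpars, hs1] at e1
    rw [hpars, hs2] at e2
    have hcard : (Fintype.card V : ℝ) ≠ 0 := by
      have : 0 < Fintype.card V := Fintype.card_pos_iff.2 ⟨i⟩
      positivity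
    rcases mul_eq_zero.1 e1 with h5 | h5
    · rw [h5, zero_mul] at e2
      exact absurd e2.symm hcard
    · exact h5

theorem dot_sq_le (x y : V → ℝ) : (x ⬝ᵥ y) ^ 2 ≤ (x ⬝ᵥ x) * (y ⬝ᵥ y) := by
  have := Finset.sum_mul_sq_le_sq_mul_sq Finset.univ x y
  simpa [dotProduct, sq] using this

theorem dot_self_nonneg (x : V → ℝ) : 0 ≤ x ⬝ᵥ x := by
  simp only [dotProduct]
  exact sum_nonneg fun v _ => mul_self_nonneg _

/-- **bilinear bound**, squared form -/
theorem IsNDL.bilin_sq (h : IsNDL G d lam) (x y : V → ℝ) :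
    (x ⬝ᵥ ((G.adjMatrix ℝ) *ᵥ y) - d / Fintype.card V * (∑ v, x v) * ∑ v, y v) ^ 2
      ≤ lam ^ 2 * (x ⬝ᵥ x) * (y ⬝ᵥ y) := by
  rcases isEmpty_or_nonempty V with hV | hV
  · simp [dotProduct]
  have hcard : (Fintype.card V : ℝ) ≠ 0 := by
    have : 0 < Fintype.card V := Fintype.card_pos
    positivity
  obtain ⟨c, hc⟩ : ∃ c : ℝ, c = (∑ v, y v) / Fintype.card V := ⟨_, rfl⟩
  have hy0 : ∑ v, (y v - c) = 0 := by
    rw [sum_sub_distrib, sum_const, hc, nsmul_eq_mul, Finset.card_univ]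
    field_simp
    ring
  have hdec : (G.adjMatrix ℝ) *ᵥ y = (G.adjMatrix ℝ) *ᵥ (fun v => y v - c) + fun _ => d * c := by
    have e1 : y = (fun v => y v - c) + c • (fun _ => (1 : ℝ)) := by
      funext v
      simp
    conv_lhs => rw [e1]
    rw [Matrix.mulVec_add, Matrix.mulVec_smul, adj_one h.1]
    congr 1
    funext v
    simp [mul_comm]
  have e2 : x ⬝ᵥ ((G.adjMatrix ℝ) *ᵥ y) - d / Fintype.card V * (∑ v, x v) * ∑ v, y v
      = x ⬝ᵥ ((G.adjMatrix ℝ) *ᵥ (fun v => y v - c)) := by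
    rw [hdec, dotProduct_add]
    have e3 : x ⬝ᵥ (fun _ => d * c) = d / Fintype.card V * (∑ v, x v) * ∑ v, y v := by
      simp only [dotProduct]
      rw [← sum_mul, hc]
      ring
    rw [e3]
    ring
  rw [e2]
  have e4 : (fun v => y v - c) ⬝ᵥ (fun v => y v - c) ≤ y ⬝ᵥ y := by
    have e5 : y ⬝ᵥ y = (fun v => y v - c) ⬝ᵥ (fun v => y v - c) + Fintype.card V * c ^ 2 := by
      have e6 : ∀ v, y v * y v = (y v - c) * (y v - c) + 2 * c * (y v - c) + c ^ 2 := fun v => by ring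
      simp only [dotProduct]
      rw [sum_congr rfl fun v _ => e6 v, sum_add_distrib, sum_add_distrib, ← mul_sum, hy0, sum_const, nsmul_eq_mul,
        Finset.card_univ]
      ring
    rw [e5]
    have : 0 ≤ (Fintype.card V : ℝ) * c ^ 2 := by positivity
    linarith
  calc (x ⬝ᵥ ((G.adjMatrix ℝ) *ᵥ (fun v => y v - c))) ^ 2
      ≤ (x ⬝ᵥ x) * (((G.adjMatrix ℝ) *ᵥ (fun v => y v - c)) ⬝ᵥ ((G.adjMatrix ℝ) *ᵥ (fun v => y v - c))) :=
        dot_sq_le _ _
    _ ≤ (x ⬝ᵥ x) * (lam ^ 2 * ((fun v => y v - c) ⬝ᵥ (fun v => y v - c))) :=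
        mul_le_mul_of_nonneg_left (h.norm_le hy0) (dot_self_nonneg x)
    _ ≤ (x ⬝ᵥ x) * (lam ^ 2 * (y ⬝ᵥ y)) :=
        mul_le_mul_of_nonneg_left (mul_le_mul_of_nonneg_left e4 (sq_nonneg _)) (dot_self_nonneg x)
    _ = _ := by ring

/-- **bilinear bound** -/
theorem IsNDL.bilin (h : IsNDL G d lam) (hl : 0 ≤ lam) (x y : V → ℝ) :
    |x ⬝ᵥ ((G.adjMatrix ℝ) *ᵥ y) - d / Fintype.card V * (∑ v, x v) * ∑ v, y v|
      ≤ lam * √(x ⬝ᵥ x) * √(y ⬝ᵥ y) := by
  rw [← Real.sqrt_sq_eq_abs]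
  have h1 : √(lam ^ 2 * (x ⬝ᵥ x) * (y ⬝ᵥ y)) = lam * √(x ⬝ᵥ x) * √(y ⬝ᵥ y) := by
    rw [Real.sqrt_mul (mul_nonneg (sq_nonneg _) (dot_self_nonneg x)), Real.sqrt_mul (sq_nonneg _), Real.sqrt_sq hl]
  rw [← h1]
  exact Real.sqrt_le_sqrt (h.bilin_sq x y)

/-- number of ordered adjacent pairs -/
def eb (G : SimpleGraph V) [DecidableRel G.Adj] (S T : Finset V) : ℕ :=
  ∑ u ∈ S, (T.filter fun v => G.Adj u v).card

theorem eb_eq (G : SimpleGraph V) [DecidableRel G.Adj] (S T : Finset V) :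
    (eb G S T : ℝ) = (fun v => if v ∈ S then (1 : ℝ) else 0) ⬝ᵥ
      ((G.adjMatrix ℝ) *ᵥ fun v => if v ∈ T then (1 : ℝ) else 0) := by
  simp only [eb, dotProduct, Matrix.mulVec, SimpleGraph.adjMatrix_apply, ite_mul, one_mul, zero_mul]
  rw [← sum_filter, Finset.filter_mem_eq_inter, Finset.univ_inter]
  push_cast
  refine sum_congr rfl fun u _ => ?_
  rw [← sum_filter, ← sum_filter, Finset.filter_filter, sum_const, nsmul_eq_mul, mul_one]
  congr 2
  ext v
  simp [and_comm]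

/-- **expander mixing lemma** -/
theorem IsNDL.mixing (h : IsNDL G d lam) (S T : Finset V) :
    ((eb G S T : ℝ) - d / Fintype.card V * S.card * T.card) ^ 2 ≤ lam ^ 2 * S.card * T.card := by
  have h1 := h.bilin_sq (fun v => if v ∈ S then (1 : ℝ) else 0) (fun v => if v ∈ T then (1 : ℝ) else 0)
  have e : ∀ R : Finset V, ∑ v, (if v ∈ R then (1 : ℝ) else 0) = R.card := by
    intro R
    rw [← sum_filter, Finset.filter_mem_eq_inter, Finset.univ_inter]
    simp
  have e' : ∀ R : Finset V,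
      (fun v => if v ∈ R then (1 : ℝ) else 0) ⬝ᵥ (fun v => if v ∈ R then (1 : ℝ) else 0) = R.card := by
    intro R
    rw [← e R]
    simp only [dotProduct]
    refine sum_congr rfl fun v _ => ?_
    split_ifs <;> simp
  rw [← eb_eq, e S, e T, e' S, e' T] at h1
  exact h1

theorem IsNDL.mixing_sqrt (h : IsNDL G d lam) (hl : 0 ≤ lam) (S T : Finset V) :
    |(eb G S T : ℝ) - d / Fintype.card V * S.card * T.card| ≤ lam * √(S.card * T.card) := by
  rw [← Real.sqrt_sq_eq_abs, ← Real.sqrt_sq hl, ← Real.sqrt_mul (sq_nonneg lam)]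
  refine Real.sqrt_le_sqrt ?_
  have := h.mixing S T
  rwa [mul_assoc (lam ^ 2)] at this

/-- eigenvectors with sum zero belong to eigenvalues of absolute value at most `lam` -/
theorem IsNDL.eigen (h : IsNDL G d lam) {mu : ℝ} {x : V → ℝ} (hx0 : x ≠ 0) (hx : ∑ v, x v = 0)
    (he : (G.adjMatrix ℝ) *ᵥ x = fun v => mu * x v) : |mu| ≤ lam := by
  obtain ⟨v, hv⟩ := Function.ne_iff.1 hx0
  have hv' : x v ≠ 0 := hv
  -- two vertices
  obtain ⟨w, hw⟩ : ∃ w, w ≠ v := by
    by_contra hcon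
    push Not at hcon
    have : ∑ u, x u = x v := Finset.sum_eq_single v (fun u _ hu => absurd (hcon u) hu) fun h' =>
      absurd (Finset.mem_univ v) h'
    exact hv' (this ▸ hx)
  have hl : 0 ≤ lam := by
    obtain ⟨b, μ, hroots, -, -⟩ := exists_eigen G
    have h1 : 2 ≤ Multiset.card (G.adjMatrix ℝ).charpoly.roots := by
      rw [hroots, Multiset.card_map]
      have : ({w, v} : Finset V).card ≤ (Finset.univ : Finset V).card := Finset.card_le_card (Finset.subset_univ _)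
      rwa [Finset.card_pair hw] at this
    have h2 : 0 < Multiset.card ((G.adjMatrix ℝ).charpoly.roots.erase (d : ℝ)) := by
      by_cases h3 : (d : ℝ) ∈ (G.adjMatrix ℝ).charpoly.roots
      · rw [Multiset.card_erase_of_mem h3]
        exact Nat.lt_pred_iff.2 (by omega)
      · rw [Multiset.erase_of_notMem h3]
        omega
    obtain ⟨ν, hν⟩ := Multiset.card_pos_iff_exists_mem.1 h2
    exact (abs_nonneg ν).trans (h.2 ν hν)
  have h4 := h.norm_le hx
  rw [he] at h4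
  have h5 : (fun v => mu * x v) ⬝ᵥ (fun v => mu * x v) = mu ^ 2 * (x ⬝ᵥ x) := by
    simp only [dotProduct, mul_sum]
    exact sum_congr rfl fun u _ => by ring
  rw [h5] at h4
  have h6 : 0 < x ⬝ᵥ x := by
    simp only [dotProduct]
    exact sum_pos' (fun u _ => mul_self_nonneg _) ⟨v, Finset.mem_univ v, mul_self_pos.2 hv'⟩
  have h7 : mu ^ 2 ≤ lam ^ 2 := le_of_mul_le_mul_right h4 h6
  exact abs_le_of_sq_le_sq h7 hl

end

end Pool.Agent.Exp
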